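import Mathlib
import Pool.Agent.Run7.h523.FT.Scales

set_option autoImplicit false

/-!
# A cover of the unit interval by windows
-/

open Set

namespace Run7.h523.FM

open Run7.h523.FT (exists_scale exists_window)

theorem exists_cover {δ : ℝ} (hδ : 0 < δ) (hδ1 : δ ≤ 1) (W : ℕ) (hW : 0 < W) :
    ∃ Q : Finset (ℝ × ℝ), (Q.card : ℝ) ≤ (2 + 4 * W) * (1 + Real.log (1 / δ)) ∧
      (∀ s ∈ Icc (0 : ℝ) 1, ∃ q ∈ Q, s ∈ Icc q.1 q.2) ∧
      ∀ q ∈ Q, (q.1 ≤ q.2 ∧ q.2 - q.1 ≤ 2 * δ) ∨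
        ∃ h, δ ≤ h ∧ h ≤ 1 / 4 ∧ h ≤ q.1 ∧ q.2 ≤ 1 - h ∧ q.2 - q.1 = h / W := by
  classical
  have h1δ : 1 ≤ 1 / δ := by rw [le_div_iff₀ hδ]; linarith
  obtain ⟨K, hK1, hK2⟩ := exists_nat_pow_near h1δ (one_lt_two : (1:ℝ) < 2)
  have h2K : (1 / 2 : ℝ) ^ K * 2 ^ K = 1 := by rw [← mul_pow]; norm_num
  have hp : (0:ℝ) < 2 ^ K := by positivity
  have hKδ : δ ≤ (1 / 2 : ℝ) ^ K := by
    rw [le_div_iff₀ hδ] at hK1
    have : (0:ℝ) < (1 / 2) ^ K := by positivity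
    nlinarith
  have hKδ2 : (1 / 2 : ℝ) ^ K ≤ 2 * δ := by
    rw [div_lt_iff₀ hδ, pow_succ] at hK2
    have : (0:ℝ) < (1 / 2) ^ K := by positivity
    nlinarith
  have hWr : (0:ℝ) < W := by exact_mod_cast hW
  have hlog : 0 ≤ Real.log (1 / δ) := Real.log_nonneg h1δ
  have hKlog : (K : ℝ) ≤ 2 * Real.log (1 / δ) := by
    have h1 := Real.log_le_log hp hK1
    rw [Real.log_pow] at h1
    have h2 := Real.log_two_gt_d9
    have h3 : (0:ℝ) ≤ K := Nat.cast_nonneg _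
    nlinarith
  set g₁ : ℕ × ℕ → ℝ × ℝ := fun p => ((1 / 2 : ℝ) ^ p.1 + p.2 * ((1 / 2 : ℝ) ^ p.1 / W),
    (1 / 2 : ℝ) ^ p.1 + p.2 * ((1 / 2 : ℝ) ^ p.1 / W) + (1 / 2 : ℝ) ^ p.1 / W) with hg₁
  set g₂ : ℕ × ℕ → ℝ × ℝ := fun p => (1 - 2 * (1 / 2 : ℝ) ^ p.1 + p.2 * ((1 / 2 : ℝ) ^ p.1 / W),
    1 - 2 * (1 / 2 : ℝ) ^ p.1 + p.2 * ((1 / 2 : ℝ) ^ p.1 / W) + (1 / 2 : ℝ) ^ p.1 / W) with hg₂
  set R : Finset (ℕ × ℕ) := Finset.Icc 2 K ×ˢ Finset.range W with hR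
  refine ⟨({((0:ℝ), (1 / 2 : ℝ) ^ K), (1 - (1 / 2 : ℝ) ^ K, (1:ℝ))} : Finset (ℝ × ℝ)) ∪
    (R.image g₁ ∪ R.image g₂), ?_, ?_, ?_⟩
  · have h1 : (({((0:ℝ), (1 / 2 : ℝ) ^ K), (1 - (1 / 2 : ℝ) ^ K, (1:ℝ))} : Finset (ℝ × ℝ)) ∪
      (R.image g₁ ∪ R.image g₂)).card ≤ 2 + (K * W + K * W) := by
      refine (Finset.card_union_le _ _).trans (add_le_add Finset.card_le_two ?_)
      have hRc : R.card ≤ K * W := by
        rw [hR, Finset.card_product, Finset.card_range, Nat.card_Icc]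
        exact Nat.mul_le_mul_right _ (by omega)
      exact (Finset.card_union_le _ _).trans (add_le_add (Finset.card_image_le.trans hRc)
        (Finset.card_image_le.trans hRc))
    calc ((({((0:ℝ), (1 / 2 : ℝ) ^ K), (1 - (1 / 2 : ℝ) ^ K, (1:ℝ))} : Finset (ℝ × ℝ)) ∪
      (R.image g₁ ∪ R.image g₂)).card : ℝ) ≤ ((2 + (K * W + K * W) : ℕ) : ℝ) := by exact_mod_cast h1
      _ = 2 + 2 * (K * W) := by push_cast; ring
      _ ≤ (2 + 4 * W) * (1 + Real.log (1 / δ)) := by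
        have : (K : ℝ) * W ≤ 2 * Real.log (1 / δ) * W := by gcongr
        nlinarith
  · intro s hs
    by_cases ht1 : s ≤ (1 / 2) ^ K
    · exact ⟨_, Finset.mem_union_left _ (Finset.mem_insert_self _ _), hs.1, ht1⟩
    by_cases ht2 : 1 - (1 / 2) ^ K ≤ s
    · exact ⟨_, Finset.mem_union_left _ (Finset.mem_insert_of_mem (Finset.mem_singleton_self _)),
        ht2, hs.2⟩
    push Not at ht1 ht2
    rcases le_total s (1 / 2) with h0 | h0
    · obtain ⟨k, hk, hk1, hk2⟩ := exists_scale (K := K) (t := s) ht1 h0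
      obtain ⟨w, hw, hw1, hw2⟩ := exists_window hW (α₀ := (1 / 2 : ℝ) ^ k)
        (h := (1 / 2 : ℝ) ^ k) (s := s) (by positivity) hk1 (by linarith)
      exact ⟨g₁ (k, w), Finset.mem_union_right _ (Finset.mem_union_left _
        (Finset.mem_image_of_mem _ (Finset.mem_product.2 ⟨hk, hw⟩))), hw1, hw2⟩
    · obtain ⟨k, hk, hk1, hk2⟩ := exists_scale (K := K) (t := 1 - s) (by linarith) (by linarith)
      obtain ⟨w, hw, hw1, hw2⟩ := exists_window hW (α₀ := 1 - 2 * (1 / 2 : ℝ) ^ k)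
        (h := (1 / 2 : ℝ) ^ k) (s := s) (by positivity) (by linarith) (by linarith)
      exact ⟨g₂ (k, w), Finset.mem_union_right _ (Finset.mem_union_right _
        (Finset.mem_image_of_mem _ (Finset.mem_product.2 ⟨hk, hw⟩))), hw1, hw2⟩
  · intro q hq
    rcases Finset.mem_union.1 hq with h | h
    · left
      rcases Finset.mem_insert.1 h with rfl | h
      · exact ⟨by positivity, by simpa using hKδ2⟩
      · rw [Finset.mem_singleton] at h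
        subst h
        refine ⟨by simp only; have : (0:ℝ) < (1 / 2) ^ K := by positivity
                   linarith, by simp only; linarith⟩
    · right
      have hprop : ∀ k ∈ Finset.Icc 2 K, δ ≤ (1 / 2 : ℝ) ^ k ∧ (1 / 2 : ℝ) ^ k ≤ 1 / 4 := by
        intro k hk
        rw [Finset.mem_Icc] at hk
        refine ⟨hKδ.trans (pow_le_pow_of_le_one (by norm_num) (by norm_num) hk.2), ?_⟩
        calc (1 / 2 : ℝ) ^ k ≤ (1 / 2 : ℝ) ^ 2 := pow_le_pow_of_le_one (by norm_num) (by norm_num) hk.1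
          _ = _ := by norm_num
      have hwW : ∀ (k w : ℕ), w ∈ Finset.range W →
          0 ≤ (w : ℝ) * ((1 / 2 : ℝ) ^ k / W) ∧
          (w : ℝ) * ((1 / 2 : ℝ) ^ k / W) + (1 / 2 : ℝ) ^ k / W ≤ (1 / 2 : ℝ) ^ k := by
        intro k w hw
        refine ⟨by positivity, ?_⟩
        have h5 : (w : ℝ) + 1 ≤ W := by exact_mod_cast Finset.mem_range.1 hw
        have h6 : (w : ℝ) * ((1 / 2 : ℝ) ^ k / W) + (1 / 2 : ℝ) ^ k / W =
            (w + 1) * ((1 / 2 : ℝ) ^ k / W) := by ring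
        rw [h6]
        calc ((w : ℝ) + 1) * ((1 / 2 : ℝ) ^ k / W) ≤ W * ((1 / 2 : ℝ) ^ k / W) := by gcongr
          _ = (1 / 2 : ℝ) ^ k := by field_simp
      rcases Finset.mem_union.1 h with h | h
      · obtain ⟨⟨k, w⟩, hkw, rfl⟩ := Finset.mem_image.1 h
        obtain ⟨hk, hw⟩ := Finset.mem_product.1 hkw
        obtain ⟨h1, h2⟩ := hprop k hk
        obtain ⟨h3, h4⟩ := hwW k w hw
        refine ⟨(1 / 2 : ℝ) ^ k, h1, h2, ?_, ?_, ?_⟩
        · simp only [hg₁]; linarith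
        · simp only [hg₁]; linarith
        · simp only [hg₁]; ring
      · obtain ⟨⟨k, w⟩, hkw, rfl⟩ := Finset.mem_image.1 h
        obtain ⟨hk, hw⟩ := Finset.mem_product.1 hkw
        obtain ⟨h1, h2⟩ := hprop k hk
        obtain ⟨h3, h4⟩ := hwW k w hw
        refine ⟨(1 / 2 : ℝ) ^ k, h1, h2, ?_, ?_, ?_⟩
        · simp only [hg₂]; linarith
        · simp only [hg₂]; linarith
        · simp only [hg₂]; ring

end Run7.h523.FM
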