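import Pool.Agent.Run7.h523.FM.Piece
import Pool.Agent.Run7.h523.FM.Cover

set_option autoImplicit false

/-!
# The maximal estimate
-/

open MeasureTheory Set Metric
open scoped ENNReal InnerProductSpace

namespace Run7.h523.FM

open Run7.h523.WF (E sg cap capC)

variable {d : ℕ}

theorem Av_cover {δ : ℝ} {a : E d → E d} {τ : E d → ℝ} (ha : Measurable a) (hτ : Measurable τ)
    {f : E d × ℝ → ℝ≥0∞} (hf : Measurable f) {Q : Finset (ℝ × ℝ)}
    (hQ : ∀ s ∈ Icc (0 : ℝ) 1, ∃ q ∈ Q, s ∈ Icc q.1 q.2) (v : E d) :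
    Av δ a τ 0 1 f v ≤ ∑ q ∈ Q, Av δ a τ q.1 q.2 f v := by
  unfold Av
  rw [← lintegral_indicator (measurable_T ha hτ v)]
  have h1 : ∀ q ∈ Q, ∫⁻ y in T δ a τ q.1 q.2 v, f y =
      ∫⁻ y, (T δ a τ q.1 q.2 v).indicator f y := fun q _ =>
    (lintegral_indicator (measurable_T ha hτ v) _).symm
  rw [Finset.sum_congr rfl h1, ← lintegral_finsetSum _ fun q _ =>
    hf.indicator (measurable_T ha hτ v)]
  apply lintegral_mono
  intro y
  by_cases hy : y ∈ T δ a τ 0 1 v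
  · rw [indicator_of_mem hy]
    obtain ⟨⟨h2, h3⟩, h4⟩ := hy
    obtain ⟨q, hq, h5, h6⟩ := hQ (y.2 - τ v) ⟨by linarith, by linarith⟩
    have h7 : y ∈ T δ a τ q.1 q.2 v := ⟨⟨by linarith, by linarith⟩, h4⟩
    calc f y = (T δ a τ q.1 q.2 v).indicator f y := (indicator_of_mem h7 _).symm
      _ ≤ _ := Finset.single_le_sum (f := fun q : ℝ × ℝ => (T δ a τ q.1 q.2 v).indicator f y)
          (fun _ _ => zero_le) hq
  · rw [indicator_of_notMem hy]; exact zero_le

theorem cell_est (hd : 1 ≤ d) {p ρ : ℝ} (hp : 2 < p) (hρ0 : 0 < ρ) (hρ1 : ρ ≤ 1) :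
    ∃ C : ℝ, 0 < C ∧ ∀ (δ : ℝ), 0 < δ → δ ≤ 1 → ∀ (a : E d → E d) (τ : E d → ℝ) (S : Set (E d))
      (f : E d × ℝ → ℝ), Measurable a → Measurable τ → MeasurableSet S → (∀ v ∈ S, ‖v‖ ≤ 1) →
      FrontOn ρ a τ S → Measurable f → (∀ y, 0 ≤ f y) → ∫⁻ y, ENNReal.ofReal (f y) ^ p ≠ ∞ →
      ∫⁻ v in S, Av δ a τ 0 1 (fun y => ENNReal.ofReal (f y)) v ^ p ≤
        ENNReal.ofReal (C * (δ ^ ((d : ℝ) * p) * δ ^ (-max ((d : ℝ) + 1 - p) 0)) *
          (1 + Real.log (1 / δ)) ^ (p + 1)) * ∫⁻ y, ENNReal.ofReal (f y) ^ p := by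
  classical
  have hvb := vb_pos (d := d)
  have hPC := PC_nonneg (d := d) hp hρ0
  set e : ℝ := max ((d : ℝ) + 1 - p) 0 with he
  have he0 : 0 ≤ e := le_max_right _ _
  have hep : (d : ℝ) + 1 - p ≤ e := le_max_left _ _
  set W : ℕ := ⌈8 / ρ⌉₊ with hW
  have hW8 : 8 / ρ ≤ W := Nat.le_ceil _
  have hW0 : 0 < W := Nat.ceil_pos.2 (by positivity)
  have hWr : (0:ℝ) < W := by exact_mod_cast hW0
  have hW1 : (1:ℝ) ≤ W := by
    have : (1:ℝ) ≤ 8 / ρ := by rw [le_div_iff₀ hρ0]; linarith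
    linarith
  set C₀ : ℝ := PC d p ρ + (2 * vb d) ^ (p - 1) * vb d with hC₀
  set C₁ : ℝ := (1 * vb d) ^ (p - 1) * vb d * (8 / ρ) ^ (d : ℝ) with hC₁
  have hC₀0 : 0 < C₀ := by positivity
  have hC₁0 : 0 < C₁ := by positivity
  refine ⟨(2 + 4 * W) ^ p * C₀ + C₁, by positivity, ?_⟩
  intro δ hδ hδ1 a τ S f ha hτ hS hS1 hF hf hf0 hfin
  set L : ℝ := 1 + Real.log (1 / δ) with hL
  have hlog : 0 ≤ Real.log (1 / δ) := Real.log_nonneg (by rw [le_div_iff₀ hδ]; linarith)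
  have hL1 : 1 ≤ L := by linarith
  set F : E d × ℝ → ℝ≥0∞ := fun y => ENNReal.ofReal (f y) with hFdef
  have hFm : Measurable F := hf.ennreal_ofReal
  set Y : ℝ := δ ^ ((d : ℝ) * p) * δ ^ (-e) with hY
  have hY0 : 0 < Y := by positivity
  rcases le_or_gt (8 * δ) ρ with h8 | h8
  · obtain ⟨Q, hQ1, hQ2, hQ3⟩ := exists_cover hδ hδ1 W hW0
    have hpiece : ∀ q ∈ Q, ∫⁻ v in S, Av δ a τ q.1 q.2 F v ^ p ≤
        ENNReal.ofReal (C₀ * Y * L) * ∫⁻ y, F y ^ p := by
      intro q hq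
      rcases hQ3 q hq with ⟨h1, h2⟩ | ⟨h, h1, h2, h3, h4, h5⟩
      · refine (short_piece (D := 2) (q := 1) (e := e) hδ hδ1 h1 (by norm_num)
          (by rw [Real.rpow_one]; exact h2) hS1 hFm (by linarith) (by nlinarith)).trans
          (mul_le_mul' (ENNReal.ofReal_le_ofReal ?_) le_rfl)
        rw [← hY]
        have : 0 < (2 * vb d) ^ (p - 1) * vb d * Y := by positivity
        have h6 : 0 ≤ PC d p ρ * Y := by positivity
        rw [hC₀]
        nlinarith
      · have h6 : h / W ≤ h := div_le_self (by linarith) hW1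
        have h7 : h / W ≤ ρ / 2 := by
          rw [div_le_iff₀ hWr]
          rw [div_le_iff₀ hρ0] at hW8
          nlinarith
        have h8' : 0 < h / W := by
          have : 0 < h := by linarith
          positivity
        refine (window_piece hd hF ha hτ hS hS1 hρ0 hρ1 hδ h8 h1 h2 h3 h4 (by linarith)
          (by linarith) (by linarith) hf hf0 hp he0 hep hfin).trans
          (mul_le_mul' (ENNReal.ofReal_le_ofReal ?_) le_rfl)
        rw [← hY, hC₀]
        have : 0 < (2 * vb d) ^ (p - 1) * vb d := by positivity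
        gcongr
        linarith
    calc ∫⁻ v in S, Av δ a τ 0 1 F v ^ p
        ≤ ∫⁻ v in S, (Q.card : ℝ≥0∞) ^ (p - 1) * ∑ q ∈ Q, Av δ a τ q.1 q.2 F v ^ p := by
          apply lintegral_mono
          intro v
          refine le_trans ?_ (ENNReal.rpow_sum_le_const_mul_sum_rpow Q _ (by linarith))
          simp only
          gcongr
          exact Av_cover ha hτ hFm hQ2 v
      _ = (Q.card : ℝ≥0∞) ^ (p - 1) * ∑ q ∈ Q, ∫⁻ v in S, Av δ a τ q.1 q.2 F v ^ p := by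
          rw [lintegral_const_mul _ (Finset.measurable_sum _ fun q _ =>
            (measurable_Av ha hτ hFm).pow_const _), lintegral_finsetSum _ fun q _ =>
            (measurable_Av ha hτ hFm).pow_const _]
      _ ≤ (Q.card : ℝ≥0∞) ^ (p - 1) * (Q.card • (ENNReal.ofReal (C₀ * Y * L) * ∫⁻ y, F y ^ p)) := by
          gcongr
          exact Finset.sum_le_card_nsmul _ _ _ hpiece
      _ = (Q.card : ℝ≥0∞) ^ p * (ENNReal.ofReal (C₀ * Y * L) * ∫⁻ y, F y ^ p) := by
          rw [nsmul_eq_mul, ← mul_assoc]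
          congr 1
          rcases Nat.eq_zero_or_pos Q.card with h | h
          · rw [h, Nat.cast_zero, mul_zero, ENNReal.zero_rpow_of_pos (by linarith)]
          · rw [ENNReal.rpow_sub _ _ (by exact_mod_cast h.ne') (ENNReal.natCast_ne_top _),
              ENNReal.rpow_one, ENNReal.div_mul_cancel (by exact_mod_cast h.ne')
              (ENNReal.natCast_ne_top _)]
      _ ≤ ENNReal.ofReal ((2 + 4 * W) * L) ^ p * (ENNReal.ofReal (C₀ * Y * L) * ∫⁻ y, F y ^ p) := by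
          gcongr
          rw [← ENNReal.ofReal_natCast]
          exact ENNReal.ofReal_le_ofReal hQ1
      _ = ENNReal.ofReal (((2 + 4 * W) * L) ^ p * (C₀ * Y * L)) * ∫⁻ y, F y ^ p := by
          rw [ENNReal.ofReal_rpow_of_nonneg (by positivity) (by linarith), ← mul_assoc,
            ← ENNReal.ofReal_mul (by positivity)]
      _ ≤ _ := by
          refine mul_le_mul' (ENNReal.ofReal_le_ofReal ?_) le_rfl
          have h9 : ((2 + 4 * (W:ℝ)) * L) ^ p * (C₀ * Y * L) = (2 + 4 * W) ^ p * C₀ * Y * L ^ (p + 1) := by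
            rw [Real.mul_rpow (by positivity) (by positivity), Real.rpow_add (by positivity),
              Real.rpow_one]
            ring
          rw [h9]
          have : 0 < C₁ * Y * L ^ (p + 1) := by positivity
          nlinarith
  · refine (short_piece (D := 1) (q := 0) (e := d) hδ hδ1 zero_le_one zero_le_one
      (by norm_num) hS1 hFm (by linarith) (by rw [zero_add]; linarith)).trans
        (mul_le_mul' (ENNReal.ofReal_le_ofReal ?_) le_rfl)
    have h1 : δ ^ (-(d : ℝ)) ≤ (8 / ρ) ^ (d : ℝ) := by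
      rw [Real.rpow_neg hδ.le, ← Real.inv_rpow hδ.le]
      apply Real.rpow_le_rpow (by positivity) _ (by positivity)
      rw [← one_div, div_le_div_iff₀ hδ hρ0]
      linarith
    have h2 : 1 ≤ δ ^ (-e) := Real.one_le_rpow_of_pos_of_le_one_of_nonpos hδ hδ1 (by linarith)
    have h3 : 1 ≤ L ^ (p + 1) := Real.one_le_rpow hL1 (by linarith)
    have h4 : 0 < δ ^ ((d : ℝ) * p) := by positivity
    calc (1 * vb d) ^ (p - 1) * vb d * (δ ^ ((d : ℝ) * p) * δ ^ (-(d : ℝ)))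
        ≤ (1 * vb d) ^ (p - 1) * vb d * (δ ^ ((d : ℝ) * p) * (8 / ρ) ^ (d : ℝ)) := by gcongr
      _ = C₁ * (δ ^ ((d : ℝ) * p) * 1) * 1 := by rw [hC₁]; ring
      _ ≤ C₁ * Y * L ^ (p + 1) := by
          rw [hY]
          gcongr
      _ ≤ _ := by
          have : 0 < (2 + 4 * (W:ℝ)) ^ p * C₀ * Y * L ^ (p + 1) := by positivity
          nlinarith

/-- The estimate on the unit ball of slopes. -/
theorem ball_est (hd : 1 ≤ d) {p ρ : ℝ} (hp : 2 < p) (hρ0 : 0 < ρ) :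
    ∃ C : ℝ, 0 < C ∧ ∀ (δ : ℝ), 0 < δ → δ ≤ 1 → ∀ (a : E d → E d) (τ : E d → ℝ)
      (f : E d × ℝ → ℝ), Measurable a → Measurable τ →
      (∀ v w : E d, ‖v‖ ≤ 1 → ‖v‖ = ‖w‖ → ‖v - w‖ ≤ ρ → ∀ s ∈ Icc (τ v) (τ v + 1),
        ∀ s' ∈ Icc (τ w) (τ w + 1), |s - s'| ≤ ρ → ‖(a v + s • v) - (a w + s' • w)‖ ≤ ρ →
        ‖v‖ * |s - s'| ≤ ‖(a v + s • v) - (a w + s' • w)‖) →
      Measurable f →
      ∫⁻ v in closedBall (0 : E d) 1, Av δ a τ 0 1 (fun y => ENNReal.ofReal |f y|) v ^ p ≤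
        ENNReal.ofReal (C * (δ ^ ((d : ℝ) * p) * δ ^ (-max ((d : ℝ) + 1 - p) 0)) *
          (1 + Real.log (1 / δ)) ^ (p + 1)) * ∫⁻ y, ENNReal.ofReal |f y| ^ p := by
  classical
  set ρ' := min ρ 1 with hρ'
  have hρ'0 : 0 < ρ' := lt_min hρ0 one_pos
  obtain ⟨C, hC, hest⟩ := cell_est hd hp hρ'0 (min_le_right _ _)
  obtain ⟨t, -, htf, hcov⟩ := (isCompact_closedBall (0 : E d) 1).finite_cover_balls
    (e := ρ' / 2) (by positivity)
  set t' := htf.toFinset with ht'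
  refine ⟨(t'.card + 1) * C, by positivity, ?_⟩
  intro δ hδ hδ1 a τ f ha hτ hF hf
  have hlog : 0 ≤ Real.log (1 / δ) := Real.log_nonneg (by rw [le_div_iff₀ hδ]; linarith)
  have hpos : 0 < C * (δ ^ ((d : ℝ) * p) * δ ^ (-max ((d : ℝ) + 1 - p) 0)) *
      (1 + Real.log (1 / δ)) ^ (p + 1) := by positivity
  by_cases hfin : ∫⁻ y, ENNReal.ofReal |f y| ^ p = ∞
  · rw [hfin, ENNReal.mul_top]
    · exact le_top
    · rw [ne_eq, ENNReal.ofReal_eq_zero, not_le]
      have : (0:ℝ) < t'.card + 1 := by positivity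
      have : 0 < ((t'.card:ℝ) + 1) * (C * (δ ^ ((d : ℝ) * p) * δ ^ (-max ((d : ℝ) + 1 - p) 0)) *
        (1 + Real.log (1 / δ)) ^ (p + 1)) := by positivity
      linarith [show ((t'.card:ℝ) + 1) * (C * (δ ^ ((d : ℝ) * p) * δ ^ (-max ((d : ℝ) + 1 - p) 0)) *
        (1 + Real.log (1 / δ)) ^ (p + 1)) = (t'.card + 1) * C * (δ ^ ((d : ℝ) * p) *
          δ ^ (-max ((d : ℝ) + 1 - p) 0)) * (1 + Real.log (1 / δ)) ^ (p + 1) by ring]
  have hm : Measurable (fun y => |f y|) := hf.abs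
  set Sx : E d → Set (E d) := fun x => closedBall 0 1 ∩ ball x (ρ' / 2) with hSx
  have hcell : ∀ x, ∫⁻ v in Sx x, Av δ a τ 0 1 (fun y => ENNReal.ofReal |f y|) v ^ p ≤
      ENNReal.ofReal (C * (δ ^ ((d : ℝ) * p) * δ ^ (-max ((d : ℝ) + 1 - p) 0)) *
        (1 + Real.log (1 / δ)) ^ (p + 1)) * ∫⁻ y, ENNReal.ofReal |f y| ^ p := by
    intro x
    refine hest δ hδ hδ1 a τ (Sx x) (fun y => |f y|) ha hτ
      (isClosed_closedBall.measurableSet.inter isOpen_ball.measurableSet)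
      (fun v hv => mem_closedBall_zero_iff.1 hv.1) ?_ hm (fun y => abs_nonneg _) hfin
    intro v hv w hw hvw s hs s' hs' h1 h2
    refine hF v w (mem_closedBall_zero_iff.1 hv.1) hvw ?_ s hs s' hs' (h1.trans (min_le_left _ _))
      (h2.trans (min_le_left _ _))
    have h3 : dist v w ≤ dist v x + dist w x := dist_triangle_right _ _ _
    have h4 := mem_ball.1 hv.2
    have h5 := mem_ball.1 hw.2
    rw [← dist_eq_norm]
    have := min_le_left ρ 1
    linarith
  have hcov' : closedBall (0 : E d) 1 ⊆ ⋃ x ∈ t', Sx x := by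
    intro v hv
    obtain ⟨x, hx, hvx⟩ := mem_iUnion₂.1 (hcov hv)
    exact mem_iUnion₂.2 ⟨x, htf.mem_toFinset.2 hx, hv, hvx⟩
  have hAm : Measurable (fun v => Av δ a τ 0 1 (fun y => ENNReal.ofReal |f y|) v ^ p) :=
    (measurable_Av ha hτ hm.ennreal_ofReal).pow_const _
  have hSm : ∀ x, MeasurableSet (Sx x) := fun x =>
    isClosed_closedBall.measurableSet.inter isOpen_ball.measurableSet
  calc ∫⁻ v in closedBall (0 : E d) 1, Av δ a τ 0 1 (fun y => ENNReal.ofReal |f y|) v ^ p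
      ≤ ∑ x ∈ t', ∫⁻ v in Sx x, Av δ a τ 0 1 (fun y => ENNReal.ofReal |f y|) v ^ p := by
        rw [← lintegral_indicator isClosed_closedBall.measurableSet]
        have h1 : ∀ x ∈ t', ∫⁻ v in Sx x, Av δ a τ 0 1 (fun y => ENNReal.ofReal |f y|) v ^ p =
            ∫⁻ v, (Sx x).indicator
              (fun v => Av δ a τ 0 1 (fun y => ENNReal.ofReal |f y|) v ^ p) v := fun x _ =>
          (lintegral_indicator (hSm x) _).symm
        rw [Finset.sum_congr rfl h1, ← lintegral_finsetSum _ fun x _ => hAm.indicator (hSm x)]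
        apply lintegral_mono
        intro v
        by_cases hv : v ∈ closedBall (0 : E d) 1
        · rw [indicator_of_mem hv]
          obtain ⟨x, hx, hvx⟩ := mem_iUnion₂.1 (hcov' hv)
          calc (fun v => Av δ a τ 0 1 (fun y => ENNReal.ofReal |f y|) v ^ p) v
              = (Sx x).indicator
                (fun v => Av δ a τ 0 1 (fun y => ENNReal.ofReal |f y|) v ^ p) v := by
                  rw [indicator_of_mem hvx]
            _ ≤ _ := Finset.single_le_sum (f := fun x => (Sx x).indicator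
              (fun v => Av δ a τ 0 1 (fun y => ENNReal.ofReal |f y|) v ^ p) v)
                (fun _ _ => zero_le) hx
        · rw [indicator_of_notMem hv]; exact zero_le
    _ ≤ t'.card • (ENNReal.ofReal (C * (δ ^ ((d : ℝ) * p) * δ ^ (-max ((d : ℝ) + 1 - p) 0)) *
        (1 + Real.log (1 / δ)) ^ (p + 1)) * ∫⁻ y, ENNReal.ofReal |f y| ^ p) :=
        Finset.sum_le_card_nsmul _ _ _ fun x _ => hcell x
    _ ≤ _ := by
        rw [nsmul_eq_mul, ← mul_assoc, ← ENNReal.ofReal_natCast, ← ENNReal.ofReal_mul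
          (Nat.cast_nonneg _)]
        refine mul_le_mul' (ENNReal.ofReal_le_ofReal ?_) le_rfl
        nlinarith

end Run7.h523.FM
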