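import Pool.Agent.Run7.h523.FM.Pol

set_option autoImplicit false

/-!
# Fronts in slope coordinates
-/

open MeasureTheory Set Metric
open scoped ENNReal InnerProductSpace

namespace Run7.h523.FM

open Run7.h523.WF (E sg cap capC)

variable {d : ℕ}

/-- Segments which are outside of the double cones of each other separate linearly. -/
theorem sepV {F : Type*} [NormedAddCommGroup F] [InnerProductSpace ℝ F] {v w z : F} {h : ℝ}
    (hh : 0 ≤ h) (hvw : ‖v‖ = ‖w‖)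
    (H : ∀ s s' : ℝ, |s| ≤ h → |s'| ≤ h → ‖v‖ * |s - s'| ≤ ‖z + s • v - s' • w‖) :
    h * ‖v - w‖ ≤ ‖z‖ := by
  have key : ∀ s s' : ℝ, |s| ≤ h → |s'| ≤ h →
      0 ≤ ‖z‖ ^ 2 + 2 * s * ⟪z, v⟫_ℝ - 2 * s' * ⟪z, w⟫_ℝ + s * s' * ‖v - w‖ ^ 2 := by
    intro s s' hs hs'
    have h1 := H s s' hs hs'
    have h3 : ‖z + s • v - s' • w‖ ^ 2 = ‖z‖ ^ 2 + 2 * s * ⟪z, v⟫_ℝ - 2 * s' * ⟪z, w⟫_ℝ +
        (s - s') ^ 2 * ‖v‖ ^ 2 + s * s' * ‖v - w‖ ^ 2 := by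
      rw [@norm_sub_sq_real, @norm_add_sq_real, @norm_sub_sq_real, inner_add_left, norm_smul,
        norm_smul, ← hvw, inner_smul_right, inner_smul_right, inner_smul_left,
        inner_smul_right]
      simp only [Real.norm_eq_abs, mul_pow, sq_abs, conj_trivial]
      ring
    have h4 : (‖v‖ * |s - s'|) ^ 2 ≤ ‖z + s • v - s' • w‖ ^ 2 :=
      pow_le_pow_left₀ (by positivity) h1 2
    rw [h3, mul_pow, sq_abs] at h4
    nlinarith
  have k1 := key h (-h) (by rw [abs_of_nonneg hh]) (by rw [abs_neg, abs_of_nonneg hh])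
  have k2 := key (-h) h (by rw [abs_neg, abs_of_nonneg hh]) (by rw [abs_of_nonneg hh])
  refine abs_le_of_sq_le_sq' ?_ (norm_nonneg _) |>.2
  nlinarith

/-- The local front condition for the slopes in `S`: the segments are
`{(a v + s • v, s) : τ v ≤ s ≤ τ v + 1}`. -/
def FrontOn (ρ : ℝ) (a : E d → E d) (τ : E d → ℝ) (S : Set (E d)) : Prop :=
  ∀ v ∈ S, ∀ w ∈ S, ‖v‖ = ‖w‖ → ∀ s ∈ Icc (τ v) (τ v + 1), ∀ s' ∈ Icc (τ w) (τ w + 1),
    |s - s'| ≤ ρ → ‖(a v + s • v) - (a w + s' • w)‖ ≤ ρ →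
    ‖v‖ * |s - s'| ≤ ‖(a v + s • v) - (a w + s' • w)‖

/-- Pieces of tubes. -/
def T (δ : ℝ) (a : E d → E d) (τ : E d → ℝ) (α β : ℝ) (v : E d) : Set (E d × ℝ) :=
  {y | y.2 ∈ Icc (τ v + α) (τ v + β) ∧ ‖y.1 - (a v + y.2 • v)‖ ≤ δ}

variable {ρ δ h α β : ℝ} {a : E d → E d} {τ : E d → ℝ} {S : Set (E d)}

theorem sep (hF : FrontOn ρ a τ S) (hδ : 0 < δ) (h4 : 4 * δ ≤ ρ) (hh : 0 < h) (hρ : 8 * h ≤ ρ)
    (hα : h ≤ α) (hβ : β ≤ 1 - h) {v w : E d} (hv : v ∈ S) (hw : w ∈ S) (hvw : ‖v‖ = ‖w‖)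
    (hv1 : ‖v‖ ≤ 1) {y : E d × ℝ} (hyv : y ∈ T δ a τ α β v) (hyw : y ∈ T δ a τ α β w) :
    h * ‖v - w‖ ≤ 2 * δ := by
  obtain ⟨⟨hv2, hv3⟩, hv4⟩ := hyv
  obtain ⟨⟨hw2, hw3⟩, hw4⟩ := hyw
  set t := y.2
  set z := (a v + t • v) - (a w + t • w) with hz
  have hz2 : ‖z‖ ≤ 2 * δ := by
    have e : z = (y.1 - (a w + t • w)) - (y.1 - (a v + t • v)) := by rw [hz]; abel
    rw [e]
    refine (norm_sub_le _ _).trans ?_
    linarith
  refine (sepV (z := z) hh.le hvw fun s s' hs hs' => ?_).trans hz2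
  rw [abs_le] at hs hs'
  have h1 := hF v hv w hw hvw (t + s) ⟨by linarith, by linarith⟩ (t + s')
    ⟨by linarith, by linarith⟩
  have e1 : (t + s) - (t + s') = s - s' := by ring
  have e2 : (a v + (t + s) • v) - (a w + (t + s') • w) = z + s • v - s' • w := by
    rw [hz]; module
  rw [e1, e2] at h1
  refine h1 ?_ ?_
  · rw [abs_le]; constructor <;> linarith
  · have h5 : ‖s • v‖ ≤ h := by
      rw [norm_smul, Real.norm_eq_abs]
      have : |s| ≤ h := abs_le.2 hs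
      have := norm_nonneg v
      have := abs_nonneg s
      nlinarith
    have h6 : ‖s' • w‖ ≤ h := by
      rw [norm_smul, Real.norm_eq_abs, ← hvw]
      have : |s'| ≤ h := abs_le.2 hs'
      have := norm_nonneg v
      have := abs_nonneg s'
      nlinarith
    calc ‖z + s • v - s' • w‖ ≤ ‖z‖ + ‖s • v‖ + ‖s' • w‖ :=
          (norm_sub_le _ _).trans (add_le_add (norm_add_le _ _) le_rfl)
      _ ≤ ρ := by linarith

/-- Steeper segments of one level meet a given tube only during a short time. -/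
theorem transv (hF : FrontOn ρ a τ S) (h8 : 8 * δ ≤ ρ) (hα : 0 ≤ α) (hβ : β ≤ 1)
    (hαβ : β - α ≤ ρ / 2) {v w w' : E d} (hv1 : ‖v‖ ≤ 1) (hw : w ∈ S) (hw' : w' ∈ S)
    (hww : ‖w‖ = ‖w'‖) {y y' : E d × ℝ} (hy : y ∈ T δ a τ α β v) (hyw : y ∈ T δ a τ α β w)
    (hy' : y' ∈ T δ a τ α β v) (hyw' : y' ∈ T δ a τ α β w') :
    (‖w‖ - ‖v‖) * |y.2 - y'.2| ≤ 4 * δ := by
  obtain ⟨⟨hv2, hv3⟩, hv4⟩ := hy
  obtain ⟨⟨hv2', hv3'⟩, hv4'⟩ := hy'
  obtain ⟨⟨hw2, hw3⟩, hw4⟩ := hyw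
  obtain ⟨⟨hw2', hw3'⟩, hw4'⟩ := hyw'
  have ht : |y.2 - y'.2| ≤ ρ / 2 := by rw [abs_le]; constructor <;> linarith
  have e : (a w + y.2 • w) - (a w' + y'.2 • w') = (y.2 - y'.2) • v +
      (y.1 - (a v + y.2 • v)) - (y.1 - (a w + y.2 • w)) - (y'.1 - (a v + y'.2 • v)) +
      (y'.1 - (a w' + y'.2 • w')) := by module
  have hn : ‖(a w + y.2 • w) - (a w' + y'.2 • w')‖ ≤ ‖v‖ * |y.2 - y'.2| + 4 * δ := by
    rw [e]
    have h1 : ‖(y.2 - y'.2) • v‖ = ‖v‖ * |y.2 - y'.2| := by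
      rw [norm_smul, Real.norm_eq_abs, mul_comm]
    calc _ ≤ ‖(y.2 - y'.2) • v‖ + ‖y.1 - (a v + y.2 • v)‖ + ‖y.1 - (a w + y.2 • w)‖ +
          ‖y'.1 - (a v + y'.2 • v)‖ + ‖y'.1 - (a w' + y'.2 • w')‖ := by
          refine (norm_add_le _ _).trans (add_le_add ?_ le_rfl)
          refine (norm_sub_le _ _).trans (add_le_add ?_ le_rfl)
          refine (norm_sub_le _ _).trans (add_le_add ?_ le_rfl)
          exact norm_add_le _ _
      _ ≤ _ := by rw [h1]; linarith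
  have h0 := abs_nonneg (y.2 - y'.2)
  have h1 := hF w hw w' hw' hww y.2 ⟨by linarith, by linarith⟩ y'.2 ⟨by linarith, by linarith⟩
    (by linarith) (hn.trans (by nlinarith [norm_nonneg v]))
  nlinarith

end Run7.h523.FM
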