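import Mathlib

set_option autoImplicit false

/-!
# Interpolation between weak type (2,2) and the supremum norm
-/

open MeasureTheory Set
open scoped ENNReal

namespace Run7.h523.FM

theorem interp {X Y : Type*} [MeasurableSpace X] [MeasurableSpace Y] (μ : Measure X) (ν : Measure Y)
    (A : (Y → ℝ≥0∞) → X → ℝ≥0∞)
    (hadd : ∀ f g, Measurable f → Measurable g → ∀ x, A (fun y => f y + g y) x ≤ A f x + A g x)
    (hmeas : ∀ f, Measurable f → Measurable (A f)) {N : ℝ} (hN : 0 < N)
    (hsup : ∀ (f : Y → ℝ≥0∞) (c : ℝ), 0 ≤ c → Measurable f → (∀ y, f y ≤ ENNReal.ofReal c) →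
      ∀ x, A f x ≤ ENNReal.ofReal (N * c))
    (K : ℝ≥0∞)
    (hweak : ∀ f, Measurable f → ∀ t : ℝ≥0∞, t ^ 2 * μ {x | t < A f x} ≤ K * ∫⁻ y, f y ^ 2 ∂ν)
    {p : ℝ} (hp : 2 < p) {f : Y → ℝ} (hf : Measurable f) (hf0 : ∀ y, 0 ≤ f y)
    (hfin : ∀ x, A (fun y => ENNReal.ofReal (f y)) x ≠ ∞) :
    ∫⁻ x, A (fun y => ENNReal.ofReal (f y)) x ^ p ∂μ ≤
      ENNReal.ofReal (4 * p * (2 * N) ^ (p - 2) / (p - 2)) * K *
        ∫⁻ y, ENNReal.ofReal (f y) ^ p ∂ν := by
  have hp0 : 0 < p := by linarith
  have hp2 : 0 < p - 2 := by linarith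
  set F : Y → ℝ≥0∞ := fun y => ENNReal.ofReal (f y) with hF
  have hFm : Measurable F := hf.ennreal_ofReal
  set G : X → ℝ := fun x => (A F x).toReal with hG
  have hGm : Measurable G := (hmeas F hFm).ennreal_toReal
  have e1 : ∫⁻ x, A F x ^ p ∂μ = ∫⁻ x, ENNReal.ofReal (G x ^ p) ∂μ := by
    congr 1
    funext x
    rw [← ENNReal.ofReal_rpow_of_nonneg ENNReal.toReal_nonneg hp0.le, ENNReal.ofReal_toReal (hfin x)]
  rw [e1, lintegral_rpow_eq_lintegral_meas_lt_mul μ
    (Filter.Eventually.of_forall fun x => ENNReal.toReal_nonneg) hGm.aemeasurable hp0]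
  set ν' : Measure Y := ν.withDensity (fun y => F y ^ 2) with hν'
  have hset : ∀ t : ℝ, MeasurableSet {y | t < 2 * N * f y} := fun t =>
    measurableSet_lt measurable_const (hf.const_mul _)
  have key : ∀ t ∈ Ioi (0 : ℝ), μ {x | t < G x} * ENNReal.ofReal (t ^ (p - 1)) ≤
      ENNReal.ofReal 4 * K * (ν' {y | t < 2 * N * f y} * ENNReal.ofReal (t ^ (p - 2 - 1))) := by
    intro t ht
    have ht0 : (0 : ℝ) < t := ht
    set f₁ : Y → ℝ≥0∞ := ({y | t < 2 * N * f y} : Set Y).indicator F with hf₁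
    set f₂ : Y → ℝ≥0∞ := ({y | t < 2 * N * f y} : Set Y)ᶜ.indicator F with hf₂
    have hf₁m : Measurable f₁ := hFm.indicator (hset t)
    have hf₂m : Measurable f₂ := hFm.indicator (hset t).compl
    have hsum : F = fun y => f₁ y + f₂ y := by
      funext y
      exact (indicator_self_add_compl_apply _ F y).symm
    have h2 : ∀ x, A f₂ x ≤ ENNReal.ofReal (t / 2) := by
      intro x
      have h3 := hsup f₂ (t / (2 * N)) (by positivity) hf₂m (by
        intro y
        by_cases hy : y ∈ {y | t < 2 * N * f y}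
        · rw [hf₂, indicator_of_notMem (by simpa using hy)]; exact zero_le
        · rw [hf₂, indicator_of_mem (by simpa using hy)]
          apply ENNReal.ofReal_le_ofReal
          rw [mem_ofPred_eq, not_lt] at hy
          rw [le_div_iff₀ (by positivity)]
          linarith) x
      convert h3 using 2
      field_simp
    have h4 : {x | t < G x} ⊆ {x | ENNReal.ofReal (t / 2) < A f₁ x} := by
      intro x hx
      rw [mem_ofPred_eq] at hx ⊢
      by_contra hcon
      rw [not_lt] at hcon
      have h5 : A F x ≤ ENNReal.ofReal t := by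
        rw [hsum]
        refine (hadd f₁ f₂ hf₁m hf₂m x).trans ((add_le_add hcon (h2 x)).trans (le_of_eq ?_))
        rw [← ENNReal.ofReal_add (by positivity) (by positivity)]
        congr 1; ring
      have h6 : G x ≤ t := ENNReal.toReal_le_of_le_ofReal ht0.le h5
      linarith
    have h7 := hweak f₁ hf₁m (ENNReal.ofReal (t / 2))
    have h8 : ∫⁻ y, f₁ y ^ 2 ∂ν = ν' {y | t < 2 * N * f y} := by
      rw [hν', withDensity_apply _ (hset t), ← lintegral_indicator (hset t)]
      congr 1
      funext y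
      by_cases hy : y ∈ {y | t < 2 * N * f y}
      · rw [hf₁, indicator_of_mem hy, indicator_of_mem hy]
      · rw [hf₁, indicator_of_notMem hy, indicator_of_notMem hy]
        simp
    rw [h8] at h7
    have h9 : ENNReal.ofReal (t ^ (p - 1)) = ENNReal.ofReal 4 * ENNReal.ofReal (t / 2) ^ 2 *
        ENNReal.ofReal (t ^ (p - 2 - 1)) := by
      rw [← ENNReal.ofReal_pow (by positivity), ← ENNReal.ofReal_mul (by positivity),
        ← ENNReal.ofReal_mul (by positivity)]
      congr 1
      have : t ^ (p - 1) = t ^ (p - 2 - 1) * t ^ (2 : ℝ) := by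
        rw [← Real.rpow_add ht0]; congr 1; ring
      rw [this, Real.rpow_two]
      ring
    calc μ {x | t < G x} * ENNReal.ofReal (t ^ (p - 1))
        ≤ μ {x | ENNReal.ofReal (t / 2) < A f₁ x} * (ENNReal.ofReal 4 * ENNReal.ofReal (t / 2) ^ 2 *
          ENNReal.ofReal (t ^ (p - 2 - 1))) := by
          rw [h9]
          gcongr
      _ = ENNReal.ofReal 4 * (ENNReal.ofReal (t / 2) ^ 2 * μ {x | ENNReal.ofReal (t / 2) < A f₁ x}) *
          ENNReal.ofReal (t ^ (p - 2 - 1)) := by ring
      _ ≤ ENNReal.ofReal 4 * (K * ν' {y | t < 2 * N * f y}) * ENNReal.ofReal (t ^ (p - 2 - 1)) := by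
          gcongr
      _ = _ := by ring
  have h10 := lintegral_rpow_eq_lintegral_meas_lt_mul ν' (f := fun y => 2 * N * f y)
    (Filter.Eventually.of_forall fun y => by have := hf0 y; positivity)
    (hf.const_mul _).aemeasurable hp2
  have h11 : ∫⁻ y, ENNReal.ofReal ((2 * N * f y) ^ (p - 2)) ∂ν' =
      ENNReal.ofReal ((2 * N) ^ (p - 2)) * ∫⁻ y, F y ^ p ∂ν := by
    rw [hν', lintegral_withDensity_eq_lintegral_mul _ (hFm.pow_const 2)
      (((hf.const_mul _).pow_const _).ennreal_ofReal),
      ← lintegral_const_mul _ (hFm.pow_const p)]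
    congr 1
    funext y
    simp only [Pi.mul_apply, hF]
    have h0 := hf0 y
    rw [Real.mul_rpow (by positivity) h0, ENNReal.ofReal_mul (by positivity),
      ← ENNReal.ofReal_rpow_of_nonneg h0 hp2.le]
    have : ENNReal.ofReal (f y) ^ p = ENNReal.ofReal (f y) ^ 2 * ENNReal.ofReal (f y) ^ (p - 2) := by
      rw [← ENNReal.rpow_two, ← ENNReal.rpow_add_of_nonneg _ _ (by norm_num) hp2.le]
      congr 1; ring
    rw [this]
    ring
  calc ENNReal.ofReal p * ∫⁻ t in Ioi (0 : ℝ), μ {x | t < G x} * ENNReal.ofReal (t ^ (p - 1))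
      ≤ ENNReal.ofReal p * ∫⁻ t in Ioi (0 : ℝ), ENNReal.ofReal 4 * K *
          (ν' {y | t < 2 * N * f y} * ENNReal.ofReal (t ^ (p - 2 - 1))) := by
        gcongr 1
        exact setLIntegral_mono' measurableSet_Ioi key
    _ = ENNReal.ofReal p * (ENNReal.ofReal 4 * K * ∫⁻ t in Ioi (0 : ℝ),
          ν' {y | t < 2 * N * f y} * ENNReal.ofReal (t ^ (p - 2 - 1))) := by
        rw [lintegral_const_mul'']
        apply Measurable.aemeasurable
        apply Measurable.mul
        · apply Antitone.measurable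
          intro s t hst
          apply measure_mono
          intro y hy
          exact lt_of_le_of_lt hst hy
        · exact (measurable_id.pow_const _).ennreal_ofReal
    _ = ENNReal.ofReal (4 * p / (p - 2)) * K * (ENNReal.ofReal (p - 2) * ∫⁻ t in Ioi (0 : ℝ),
          ν' {y | t < 2 * N * f y} * ENNReal.ofReal (t ^ (p - 2 - 1))) := by
        have : ENNReal.ofReal p * ENNReal.ofReal 4 = ENNReal.ofReal (4 * p / (p - 2)) *
            ENNReal.ofReal (p - 2) := by
          rw [← ENNReal.ofReal_mul hp0.le, ← ENNReal.ofReal_mul (by positivity)]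
          congr 1
          field_simp
        calc _ = (ENNReal.ofReal p * ENNReal.ofReal 4) * K * ∫⁻ t in Ioi (0 : ℝ),
              ν' {y | t < 2 * N * f y} * ENNReal.ofReal (t ^ (p - 2 - 1)) := by ring
          _ = _ := by rw [this]; ring
    _ = ENNReal.ofReal (4 * p / (p - 2)) * K *
          (ENNReal.ofReal ((2 * N) ^ (p - 2)) * ∫⁻ y, F y ^ p ∂ν) := by
        rw [← h10, h11]
    _ = _ := by
        have : ENNReal.ofReal (4 * p * (2 * N) ^ (p - 2) / (p - 2)) =
            ENNReal.ofReal (4 * p / (p - 2)) * ENNReal.ofReal ((2 * N) ^ (p - 2)) := by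
          rw [← ENNReal.ofReal_mul (by positivity)]
          congr 1
          ring
        rw [this]
        ring

end Run7.h523.FM
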