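import Pool.Agent.Run7.h523.FM.Geo

set_option autoImplicit false

/-!
# The measure of the intersections
-/

open MeasureTheory Set Metric
open scoped ENNReal InnerProductSpace

namespace Run7.h523.FM

open Run7.h523.WF (E sg cap capC)

variable {d : ℕ} {ρ δ h α β : ℝ} {a : E d → E d} {τ : E d → ℝ} {S : Set (E d)}

theorem measurable_graph (ha : Measurable a) (hτ : Measurable τ) :
    MeasurableSet {p : E d × (E d × ℝ) | p.2 ∈ T δ a τ α β p.1} := by
  have h1 : MeasurableSet {p : E d × (E d × ℝ) | τ p.1 + α ≤ p.2.2} :=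
    measurableSet_le (by fun_prop) (by fun_prop)
  have h2 : MeasurableSet {p : E d × (E d × ℝ) | p.2.2 ≤ τ p.1 + β} :=
    measurableSet_le (by fun_prop) (by fun_prop)
  have h3 : MeasurableSet {p : E d × (E d × ℝ) | ‖p.2.1 - (a p.1 + p.2.2 • p.1)‖ ≤ δ} :=
    measurableSet_le (by fun_prop) (by fun_prop)
  exact (h1.inter h2).inter h3

theorem measurable_T (ha : Measurable a) (hτ : Measurable τ) (v : E d) :
    MeasurableSet (T δ a τ α β v) :=
  measurable_prodMk_left (measurable_graph ha hτ)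

/-- The volume of the unit ball. -/
noncomputable def vb (d : ℕ) : ℝ := (volume (ball (0 : E d) 1)).toReal

theorem vb_pos : 0 < vb d :=
  ENNReal.toReal_pos (measure_ball_pos _ _ one_pos).ne' measure_ball_lt_top.ne

theorem vol_slab (v : E d) (b : E d) (hδ : 0 ≤ δ) {c c' : ℝ} (hc : c ≤ c') :
    volume {y : E d × ℝ | y.2 ∈ Icc c c' ∧ ‖y.1 - (b + y.2 • v)‖ ≤ δ} =
      ENNReal.ofReal ((c' - c) * (δ ^ d * vb d)) := by
  have hm : MeasurableSet {y : E d × ℝ | y.2 ∈ Icc c c' ∧ ‖y.1 - (b + y.2 • v)‖ ≤ δ} := by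
    have h3 : MeasurableSet {y : E d × ℝ | ‖y.1 - (b + y.2 • v)‖ ≤ δ} :=
      measurableSet_le (by fun_prop) (by fun_prop)
    exact (measurable_snd measurableSet_Icc).inter h3
  rw [Measure.volume_eq_prod, Measure.prod_apply_symm hm]
  have : ∀ t : ℝ, volume ((fun x : E d => (x, t)) ⁻¹'
      {y : E d × ℝ | y.2 ∈ Icc c c' ∧ ‖y.1 - (b + y.2 • v)‖ ≤ δ}) =
      (Icc c c').indicator (fun _ => ENNReal.ofReal (δ ^ d * vb d)) t := by
    intro t
    by_cases ht : t ∈ Icc c c'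
    · rw [indicator_of_mem ht]
      have : (fun x : E d => (x, t)) ⁻¹' {y : E d × ℝ | y.2 ∈ Icc c c' ∧ ‖y.1 - (b + y.2 • v)‖ ≤ δ} =
          closedBall (b + t • v) δ := by
        ext x
        simp only [mem_preimage, mem_ofPred_eq, ht, true_and, mem_closedBall, dist_eq_norm]
      rw [this, Measure.addHaar_closedBall _ _ hδ, finrank_euclideanSpace_fin, vb,
        ENNReal.ofReal_mul (by positivity), ENNReal.ofReal_toReal measure_ball_lt_top.ne]
    · rw [indicator_of_notMem ht]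
      have : (fun x : E d => (x, t)) ⁻¹' {y : E d × ℝ | y.2 ∈ Icc c c' ∧ ‖y.1 - (b + y.2 • v)‖ ≤ δ} =
          ∅ := by
        ext x
        simp only [mem_preimage, mem_ofPred_eq, ht, false_and, mem_empty_iff_false]
      rw [this, measure_empty]
  simp_rw [this]
  rw [lintegral_indicator_const measurableSet_Icc, Real.volume_Icc, mul_comm,
    ← ENNReal.ofReal_mul (by linarith)]

theorem exists_Icc {A : Set ℝ} {m : ℝ} (hm : 0 ≤ m) (hA : ∀ t ∈ A, ∀ t' ∈ A, |t - t'| ≤ m) :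
    ∃ c, A ⊆ Icc c (c + m) := by
  rcases A.eq_empty_or_nonempty with h | ⟨t₀, h₀⟩
  · exact ⟨0, by simp [h]⟩
  · have hb : BddBelow A := ⟨t₀ - m, fun t ht => by
      have := abs_le.1 (hA t ht t₀ h₀)
      linarith⟩
    refine ⟨sInf A, fun t ht => ⟨csInf_le hb ht, ?_⟩⟩
    have : t - m ≤ sInf A := le_csInf ⟨t₀, h₀⟩ fun t' ht' => by
      have := abs_le.1 (hA t ht t' ht')
      linarith
    linarith

/-- One level. -/
theorem level_est (hF : FrontOn ρ a τ S) (ha : Measurable a) (hτ : Measurable τ)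
    (hS : MeasurableSet S) (hS1 : ∀ v ∈ S, ‖v‖ ≤ 1)
    (hδ : 0 < δ) (h8 : 8 * δ ≤ ρ) (hh : 0 < h) (hρ : 8 * h ≤ ρ)
    (hα : h ≤ α) (hβ : β ≤ 1 - h) (hαβ' : α ≤ β) (hαβ : β - α ≤ ρ / 2) {v₀ : E d} (hv₀ : v₀ ∈ S)
    {r : ℝ} (hr : ‖v₀‖ < r) :
    ENNReal.ofReal (r ^ (d - 1)) * ∫⁻ ω, S.indicator (fun w => volume (T δ a τ α β v₀ ∩ T δ a τ α β w))
        (r • (ω : E d)) ∂(sg d) ≤
      ENNReal.ofReal (SC d * (3 * δ / h) ^ (d - 1) * (δ ^ d * vb d)) *
        ENNReal.ofReal (min 1 (4 * δ / (r - ‖v₀‖))) := by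
  have hr0 : 0 < r := (norm_nonneg _).trans_lt hr
  set m := min 1 (4 * δ / (r - ‖v₀‖)) with hm
  have hm0 : 0 ≤ m := le_min zero_le_one (div_nonneg (by linarith) (by linarith))
  set Av : E d × ℝ → Set (sphere (0 : E d) 1) := fun y => {ω | r • (ω : E d) ∈ S ∧
    y ∈ T δ a τ α β (r • (ω : E d))} with hAv
  set G : Set (sphere (0 : E d) 1 × (E d × ℝ)) := {p | r • (p.1 : E d) ∈ S ∧
    p.2 ∈ T δ a τ α β (r • (p.1 : E d))} with hG
  have hGm : MeasurableSet G := by
    have h1 : Measurable (fun p : sphere (0 : E d) 1 × (E d × ℝ) => r • (p.1 : E d)) := by fun_prop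
    have h2 : Measurable (fun p : sphere (0 : E d) 1 × (E d × ℝ) => (r • (p.1 : E d), p.2)) := by
      fun_prop
    exact (h1 hS).inter (h2 (measurable_graph ha hτ))
  -- exchange the integrals
  have h1 : ∫⁻ ω, S.indicator (fun w => volume (T δ a τ α β v₀ ∩ T δ a τ α β w))
        (r • (ω : E d)) ∂(sg d) = ∫⁻ y in T δ a τ α β v₀, sg d (Av y) := by
    have hsf : SFinite (sg d) := by unfold sg; infer_instance
    have h2 : ∀ ω : sphere (0 : E d) 1, S.indicator
        (fun w => volume (T δ a τ α β v₀ ∩ T δ a τ α β w)) (r • (ω : E d)) =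
        (volume.restrict (T δ a τ α β v₀)) (Prod.mk ω ⁻¹' G) := by
      intro ω
      by_cases hω : r • (ω : E d) ∈ S
      · rw [indicator_of_mem hω, Measure.restrict_apply (measurable_prodMk_left hGm), inter_comm]
        congr 2
        ext y
        simp [hG, hω]
      · rw [indicator_of_notMem hω]
        have : Prod.mk ω ⁻¹' G = ∅ := by
          ext y
          simp [hG, hω]
        rw [this, measure_empty]
    simp_rw [h2]
    rw [← Measure.prod_apply hGm, Measure.prod_apply_symm hGm]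
    rfl
  rw [h1]
  -- the set of the times
  set τr : Set ℝ := {t | ∃ y ∈ T δ a τ α β v₀, y.2 = t ∧ (Av y).Nonempty} with hτr
  have hnorm : ∀ ω : sphere (0 : E d) 1, ‖r • (ω : E d)‖ = r := by
    intro ω
    rw [norm_smul, Real.norm_eq_abs, abs_of_pos hr0, mem_sphere_zero_iff_norm.1 ω.2, mul_one]
  obtain ⟨c, hc⟩ := exists_Icc (A := τr) hm0 (by
    rintro _ ⟨y, hy, rfl, ω, hω1, hω2⟩ _ ⟨y', hy', rfl, ω', hω1', hω2'⟩
    have h3 := transv hF h8 (by linarith) (by linarith) hαβ (hS1 v₀ hv₀) hω1 hω1'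
      ((hnorm ω).trans (hnorm ω').symm) hy hω2 hy' hω2'
    rw [hnorm] at h3
    refine le_min ?_ ?_
    · have h4 := hy.1
      have h5 := hy'.1
      rw [abs_le]
      constructor <;> linarith [h4.1, h4.2, h5.1, h5.2]
    · rw [le_div_iff₀ (by linarith)]
      linarith)
  set s : ℝ := 3 * δ / (h * r) with hs
  have hs0 : 0 < s := by positivity
  have hcap : ∀ y, sg d (Av y) ≤ ENNReal.ofReal (SC d * s ^ (d - 1)) := by
    intro y
    refine small_sets hs0 _ fun ω hω ω' hω' => ?_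
    have h3 := sep hF hδ (by linarith) hh hρ hα hβ hω.1 hω'.1
      ((hnorm ω).trans (hnorm ω').symm) (hS1 _ hω.1) hω.2 hω'.2
    rw [← smul_sub, norm_smul, Real.norm_eq_abs, abs_of_pos hr0] at h3
    rw [hs, lt_div_iff₀ (by positivity)]
    nlinarith
  have h2 : ∫⁻ y in T δ a τ α β v₀, sg d (Av y) ≤
      ∫⁻ y in {y : E d × ℝ | y.2 ∈ Icc c (c + m) ∧ ‖y.1 - (a v₀ + y.2 • v₀)‖ ≤ δ},
        ENNReal.ofReal (SC d * s ^ (d - 1)) := by
    have hm2 : MeasurableSet {y : E d × ℝ | y.2 ∈ Icc c (c + m) ∧ ‖y.1 - (a v₀ + y.2 • v₀)‖ ≤ δ} := by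
      have h3 : MeasurableSet {y : E d × ℝ | ‖y.1 - (a v₀ + y.2 • v₀)‖ ≤ δ} :=
        measurableSet_le (by fun_prop) (by fun_prop)
      exact (measurable_snd measurableSet_Icc).inter h3
    rw [← lintegral_indicator (measurable_T ha hτ v₀), ← lintegral_indicator hm2]
    apply lintegral_mono
    intro y
    by_cases hy : y ∈ T δ a τ α β v₀
    · rw [indicator_of_mem hy]
      rcases (Av y).eq_empty_or_nonempty with h3 | h3
      · rw [h3, measure_empty]; exact zero_le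
      · rw [indicator_of_mem]
        · exact hcap y
        · exact ⟨hc ⟨y, hy, rfl, h3⟩, hy.2⟩
    · rw [indicator_of_notMem hy]; exact zero_le
  calc ENNReal.ofReal (r ^ (d - 1)) * ∫⁻ y in T δ a τ α β v₀, sg d (Av y)
      ≤ ENNReal.ofReal (r ^ (d - 1)) * (ENNReal.ofReal (SC d * s ^ (d - 1)) *
          ENNReal.ofReal (m * (δ ^ d * vb d))) := by
        gcongr
        refine h2.trans (le_of_eq ?_)
        rw [setLIntegral_const, vol_slab v₀ (a v₀) hδ.le (by linarith), add_sub_cancel_left]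
    _ = _ := by
        have := SC_nonneg d
        have := vb_pos (d := d)
        rw [← ENNReal.ofReal_mul (by positivity), ← ENNReal.ofReal_mul (by positivity),
          ← ENNReal.ofReal_mul (by positivity)]
        congr 1
        have e : r ^ (d - 1) * s ^ (d - 1) = (3 * δ / h) ^ (d - 1) := by
          rw [← mul_pow, hs]
          congr 1
          field_simp
        rw [← e]
        ring

/-- The constant. -/
noncomputable def MC (d : ℕ) : ℝ := SC d * 3 ^ (d - 1) * vb d * 4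

theorem MC_nonneg : 0 ≤ MC d := by
  have := SC_nonneg d
  have := vb_pos (d := d)
  unfold MC; positivity

/-- The sum over the steeper tubes. -/
theorem pair_est (hd : 1 ≤ d) (hF : FrontOn ρ a τ S) (ha : Measurable a) (hτ : Measurable τ)
    (hS : MeasurableSet S) (hS1 : ∀ v ∈ S, ‖v‖ ≤ 1)
    (hδ : 0 < δ) (hδ4 : 4 * δ ≤ 1) (h8 : 8 * δ ≤ ρ) (hh : 0 < h) (hρ : 8 * h ≤ ρ)
    (hα : h ≤ α) (hβ : β ≤ 1 - h) (hαβ' : α ≤ β) (hαβ : β - α ≤ ρ / 2) {v₀ : E d} (hv₀ : v₀ ∈ S) :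
    ∫⁻ w in S ∩ {w | ‖v₀‖ ≤ ‖w‖}, volume (T δ a τ α β v₀ ∩ T δ a τ α β w) ≤
      ENNReal.ofReal (MC d * δ ^ (2 * d) * (1 / h) ^ (d - 1) * (1 + Real.log (1 / δ))) := by
  have hgm : Measurable (fun w => volume (T δ a τ α β v₀ ∩ T δ a τ α β w)) := by
    have h1 : MeasurableSet {p : E d × (E d × ℝ) | p.2 ∈ T δ a τ α β v₀ ∧ p.2 ∈ T δ a τ α β p.1} :=
      (measurable_snd (measurable_T ha hτ v₀)).inter (measurable_graph ha hτ)
    exact measurable_measure_prodMk_left h1
  have hm2 : MeasurableSet {w : E d | ‖v₀‖ ≤ ‖w‖} := measurableSet_le (by fun_prop) (by fun_prop)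
  rw [← lintegral_indicator (hS.inter hm2), polar hd (hgm.indicator (hS.inter hm2))]
  set φ : ℝ → ℝ≥0∞ := fun r => ENNReal.ofReal (r ^ (d - 1)) *
    ∫⁻ ω, (S ∩ {w | ‖v₀‖ ≤ ‖w‖}).indicator (fun w => volume (T δ a τ α β v₀ ∩ T δ a τ α β w))
      (r • (ω : E d)) ∂(sg d) with hφ
  have hzero : ∀ r ∈ Ioi (0 : ℝ), r ∉ Icc ‖v₀‖ 1 → φ r = 0 := by
    intro r hr hr'
    rw [hφ]
    simp only
    have : ∀ ω : sphere (0 : E d) 1, (S ∩ {w | ‖v₀‖ ≤ ‖w‖}).indicator
        (fun w => volume (T δ a τ α β v₀ ∩ T δ a τ α β w)) (r • (ω : E d)) = 0 := by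
      intro ω
      apply indicator_of_notMem
      rintro ⟨h1, h2⟩
      have h3 : ‖r • (ω : E d)‖ = r := by
        rw [norm_smul, Real.norm_eq_abs, abs_of_pos hr, mem_sphere_zero_iff_norm.1 ω.2, mul_one]
      have h4 := hS1 _ h1
      rw [mem_ofPred_eq, h3] at h2
      rw [h3] at h4
      exact hr' ⟨h2, h4⟩
    simp_rw [this]
    rw [lintegral_zero, mul_zero]
  have h1 : ∫⁻ r in Ioi (0 : ℝ), φ r ≤ ∫⁻ r in Icc ‖v₀‖ 1, φ r := by
    rw [← lintegral_indicator measurableSet_Ioi, ← lintegral_indicator measurableSet_Icc]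
    apply lintegral_mono
    intro r
    by_cases hr : r ∈ Ioi (0 : ℝ)
    · rw [indicator_of_mem hr]
      by_cases hr' : r ∈ Icc ‖v₀‖ 1
      · rw [indicator_of_mem hr']
      · rw [hzero r hr hr']; exact zero_le
    · rw [indicator_of_notMem hr]; exact zero_le
  refine h1.trans ?_
  rw [← restrict_Ioc_eq_restrict_Icc]
  have h2 : ∫⁻ r in Ioc ‖v₀‖ 1, φ r ≤ ∫⁻ r in Ioc ‖v₀‖ 1,
      ENNReal.ofReal (SC d * (3 * δ / h) ^ (d - 1) * (δ ^ d * vb d)) *
        ENNReal.ofReal (min 1 (4 * δ / (r - ‖v₀‖))) := by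
    refine setLIntegral_mono' measurableSet_Ioc fun r hr => ?_
    refine le_trans ?_ (level_est hF ha hτ hS hS1 hδ h8 hh hρ hα hβ hαβ' hαβ hv₀ hr.1)
    rw [hφ]
    simp only
    gcongr with ω
    exact inter_subset_left
  refine h2.trans ?_
  rw [lintegral_const_mul' _ _ ENNReal.ofReal_ne_top]
  have h3 := log_integral (η := 4 * δ) (by linarith) hδ4 (norm_nonneg v₀)
  have hSC := SC_nonneg d
  have hvb := vb_pos (d := d)
  calc _ ≤ ENNReal.ofReal (SC d * (3 * δ / h) ^ (d - 1) * (δ ^ d * vb d)) *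
        ENNReal.ofReal (4 * δ * (1 + Real.log (1 / (4 * δ)))) := by gcongr
    _ = ENNReal.ofReal ((SC d * (3 * δ / h) ^ (d - 1) * (δ ^ d * vb d)) *
        (4 * δ * (1 + Real.log (1 / (4 * δ))))) := by
        rw [← ENNReal.ofReal_mul (by positivity)]
    _ ≤ _ := by
        apply ENNReal.ofReal_le_ofReal
        have hl : Real.log (1 / (4 * δ)) ≤ Real.log (1 / δ) := by
          apply Real.log_le_log (by positivity)
          apply one_div_le_one_div_of_le hδ; linarith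
        have e : (3 * δ / h) ^ (d - 1) = 3 ^ (d - 1) * δ ^ (d - 1) * (1 / h) ^ (d - 1) := by
          rw [← mul_pow, ← mul_pow]
          congr 1
          field_simp
        have e2 : δ ^ (2 * d) = δ ^ (d - 1) * δ ^ d * δ := by
          rw [← pow_add, ← pow_succ]
          congr 1
          omega
        rw [e, e2]
        unfold MC
        calc _ = (SC d * 3 ^ (d - 1) * vb d * 4) * (δ ^ (d - 1) * δ ^ d * δ) * (1 / h) ^ (d - 1) *
              (1 + Real.log (1 / (4 * δ))) := by ring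
          _ ≤ _ := by gcongr

end Run7.h523.FM
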