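import Pool.Agent.Run7.h523.FM.Weak
import Pool.Agent.Run7.h523.FM.Interp

set_option autoImplicit false

/-!
# The estimates for the pieces
-/

open MeasureTheory Set Metric
open scoped ENNReal InnerProductSpace

namespace Run7.h523.FM

open Run7.h523.WF (E sg cap capC)

variable {d : ℕ} {ρ δ h α β : ℝ} {a : E d → E d} {τ : E d → ℝ} {S : Set (E d)}

theorem vol_T (hδ : 0 ≤ δ) (hαβ : α ≤ β) (v : E d) :
    volume (T δ a τ α β v) = ENNReal.ofReal ((β - α) * (δ ^ d * vb d)) := by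
  have h1 := vol_slab v (a v) hδ (c := τ v + α) (c' := τ v + β) (by linarith)
  rw [show τ v + β - (τ v + α) = β - α by ring] at h1
  exact h1

theorem holder_T (hδ : 0 ≤ δ) (hαβ : α ≤ β) {f : E d × ℝ → ℝ≥0∞} (hf : Measurable f) {p : ℝ}
    (hp : 1 < p) (v : E d) :
    Av δ a τ α β f v ^ p ≤ ENNReal.ofReal ((β - α) * (δ ^ d * vb d)) ^ (p - 1) * ∫⁻ y, f y ^ p := by
  have hp0 : 0 < p := by linarith
  have hpq : p.HolderConjugate (p / (p - 1)) := Real.HolderConjugate.conjExponent hp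
  have h1 := ENNReal.lintegral_mul_le_Lp_mul_Lq (volume.restrict (T δ a τ α β v)) hpq
    hf.aemeasurable (g := fun _ => 1) aemeasurable_const
  simp only [Pi.mul_apply, mul_one, ENNReal.one_rpow] at h1
  have h2 : ∫⁻ _ in T δ a τ α β v, (1 : ℝ≥0∞) = ENNReal.ofReal ((β - α) * (δ ^ d * vb d)) := by
    rw [setLIntegral_const, one_mul, vol_T hδ hαβ]
  rw [h2] at h1
  calc Av δ a τ α β f v ^ p ≤ ((∫⁻ y in T δ a τ α β v, f y ^ p) ^ (1 / p) *
        ENNReal.ofReal ((β - α) * (δ ^ d * vb d)) ^ (1 / (p / (p - 1)))) ^ p := by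
        gcongr
        exact h1
    _ = (∫⁻ y in T δ a τ α β v, f y ^ p) * ENNReal.ofReal ((β - α) * (δ ^ d * vb d)) ^ (p - 1) := by
        rw [ENNReal.mul_rpow_of_nonneg _ _ hp0.le, ← ENNReal.rpow_mul, ← ENNReal.rpow_mul,
          one_div_mul_cancel hp0.ne', ENNReal.rpow_one]
        congr 2
        have : p - 1 ≠ 0 := by linarith
        field_simp
    _ ≤ _ := by
        rw [mul_comm]
        gcongr
        exact Measure.restrict_le_self

theorem Av_ne_top (hδ : 0 ≤ δ) (hαβ : α ≤ β) {f : E d × ℝ → ℝ≥0∞} (hf : Measurable f) {p : ℝ}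
    (hp : 1 < p) (hfin : ∫⁻ y, f y ^ p ≠ ∞) (v : E d) : Av δ a τ α β f v ≠ ∞ := by
  intro hcon
  have h1 := holder_T (a := a) (τ := τ) hδ hαβ hf hp v
  rw [hcon, ENNReal.top_rpow_of_pos (by linarith)] at h1
  exact ENNReal.mul_ne_top (ENNReal.rpow_ne_top_of_nonneg (by linarith) ENNReal.ofReal_ne_top) hfin
    (top_le_iff.1 h1)

/-- short pieces -/
theorem short_piece {D q e : ℝ} (hδ : 0 < δ) (hδ1 : δ ≤ 1) (hαβ : α ≤ β) (hD0 : 0 ≤ D)
    (hD : β - α ≤ D * δ ^ q)
    (hS1 : ∀ v ∈ S, ‖v‖ ≤ 1) {f : E d × ℝ → ℝ≥0∞} (hf : Measurable f) {p : ℝ} (hp : 1 < p)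
    (he : (d : ℝ) * p - e ≤ (q + d) * (p - 1)) :
    ∫⁻ v in S, Av δ a τ α β f v ^ p ≤
      ENNReal.ofReal ((D * vb d) ^ (p - 1) * vb d * (δ ^ ((d : ℝ) * p) * δ ^ (-e))) *
        ∫⁻ y, f y ^ p := by
  have hvb := vb_pos (d := d)
  have hvS : volume S ≤ ENNReal.ofReal (vb d) := by
    refine (measure_mono (t := closedBall (0 : E d) 1) fun v hv => ?_).trans ?_
    · rw [mem_closedBall_zero_iff]; exact hS1 v hv
    · rw [Measure.addHaar_closedBall _ _ zero_le_one, finrank_euclideanSpace_fin, one_pow,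
        ENNReal.ofReal_one, one_mul, vb, ENNReal.ofReal_toReal measure_ball_lt_top.ne]
  calc ∫⁻ v in S, Av δ a τ α β f v ^ p
      ≤ ∫⁻ _ in S, ENNReal.ofReal ((β - α) * (δ ^ d * vb d)) ^ (p - 1) * ∫⁻ y, f y ^ p :=
        lintegral_mono fun v => holder_T hδ.le hαβ hf hp v
    _ = (ENNReal.ofReal ((β - α) * (δ ^ d * vb d)) ^ (p - 1) * ∫⁻ y, f y ^ p) * volume S := by
        rw [setLIntegral_const]
    _ ≤ (ENNReal.ofReal ((D * vb d) ^ (p - 1) * (δ ^ ((d : ℝ) * p) * δ ^ (-e))) * ∫⁻ y, f y ^ p) *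
        ENNReal.ofReal (vb d) := by
        gcongr
        have hb0 : 0 ≤ β - α := by linarith
        rw [ENNReal.ofReal_rpow_of_nonneg (by positivity) (by linarith)]
        apply ENNReal.ofReal_le_ofReal
        calc ((β - α) * (δ ^ d * vb d)) ^ (p - 1) ≤ ((D * δ ^ q) * (δ ^ d * vb d)) ^ (p - 1) := by
              gcongr
          _ = ((D * vb d) * δ ^ (q + d)) ^ (p - 1) := by
              congr 1
              rw [Real.rpow_add hδ, Real.rpow_natCast]; ring
          _ = (D * vb d) ^ (p - 1) * δ ^ ((q + d) * (p - 1)) := by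
              rw [Real.mul_rpow (by positivity) (by positivity), ← Real.rpow_mul hδ.le]
          _ ≤ (D * vb d) ^ (p - 1) * δ ^ ((d : ℝ) * p - e) := by
              have := Real.rpow_le_rpow_of_exponent_ge hδ hδ1 he
              gcongr
          _ = _ := by rw [Real.rpow_sub hδ, Real.rpow_neg hδ.le, div_eq_mul_inv]
    _ = _ := by
        rw [mul_right_comm, ← ENNReal.ofReal_mul (by positivity)]
        congr 2
        ring

/-- The constant of the windows. -/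
noncomputable def PC (d : ℕ) (p ρ : ℝ) : ℝ :=
  4 * p * (2 * vb d) ^ (p - 2) / (p - 2) * (2 * (MC d * (2 / ρ) ^ (d - 1)))

theorem PC_nonneg {p : ℝ} (hp : 2 < p) (hρ : 0 < ρ) : 0 ≤ PC d p ρ := by
  have := MC_nonneg (d := d)
  have := vb_pos (d := d)
  have : 0 < p - 2 := by linarith
  unfold PC; positivity

/-- the windows -/
theorem window_piece (hd : 1 ≤ d) (hF : FrontOn ρ a τ S) (ha : Measurable a) (hτ : Measurable τ)
    (hS : MeasurableSet S) (hS1 : ∀ v ∈ S, ‖v‖ ≤ 1) (hρ0 : 0 < ρ) (hρ1 : ρ ≤ 1)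
    (hδ : 0 < δ) (h8 : 8 * δ ≤ ρ) (hδh : δ ≤ h) (hh : h ≤ 1 / 4)
    (hα : h ≤ α) (hβ : β ≤ 1 - h) (hαβ' : α ≤ β) (hαβ : β - α ≤ ρ / 2) (hαβh : β - α ≤ h)
    {f : E d × ℝ → ℝ} (hf : Measurable f) (hf0 : ∀ y, 0 ≤ f y) {p e : ℝ} (hp : 2 < p) (he : 0 ≤ e)
    (hpe : (d : ℝ) + 1 - p ≤ e) (hfin : ∫⁻ y, ENNReal.ofReal (f y) ^ p ≠ ∞) :
    ∫⁻ v in S, Av δ a τ α β (fun y => ENNReal.ofReal (f y)) v ^ p ≤
      ENNReal.ofReal (PC d p ρ * (δ ^ ((d : ℝ) * p) * δ ^ (-e)) * (1 + Real.log (1 / δ))) *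
        ∫⁻ y, ENNReal.ofReal (f y) ^ p := by
  have hvb := vb_pos (d := d)
  have hMC := MC_nonneg (d := d)
  have hh0 : 0 < h := by linarith
  have hp2 : 0 < p - 2 := by linarith
  have hlog : 0 ≤ Real.log (1 / δ) := Real.log_nonneg (by rw [le_div_iff₀ hδ]; linarith)
  set h' := ρ * h / 2 with hh'
  have hh'0 : 0 < h' := by positivity
  have hh'h : h' ≤ h := by rw [hh']; nlinarith
  set N := h * (δ ^ d * vb d) with hN
  have hN0 : 0 < N := by positivity
  have key := interp (volume.restrict S) (volume : Measure (E d × ℝ)) (Av δ a τ α β)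
    (fun f g hf _ x => by
      unfold Av
      rw [lintegral_add_left hf])
    (fun f hf => measurable_Av ha hτ hf) hN0
    (fun f c hc _ hfc x => by
      unfold Av
      calc ∫⁻ y in T δ a τ α β x, f y ≤ ∫⁻ _ in T δ a τ α β x, ENNReal.ofReal c :=
            lintegral_mono fun y => hfc y
        _ = ENNReal.ofReal c * ENNReal.ofReal ((β - α) * (δ ^ d * vb d)) := by
            rw [setLIntegral_const, vol_T hδ.le hαβ']
        _ ≤ ENNReal.ofReal (N * c) := by
            rw [← ENNReal.ofReal_mul hc]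
            apply ENNReal.ofReal_le_ofReal
            rw [mul_comm, hN]
            gcongr)
    (2 * ENNReal.ofReal (MC d * δ ^ (2 * d) * (1 / h') ^ (d - 1) * (1 + Real.log (1 / δ))))
    (fun f hf t => by
      have hm : MeasurableSet {x | t < Av δ a τ α β f x} :=
        measurableSet_lt measurable_const (measurable_Av ha hτ hf)
      rw [Measure.restrict_apply hm]
      have := weak (ρ := ρ) (h := h') hd hF ha hτ hS hS1 hδ (by linarith) h8 hh'0 (by rw [hh']; nlinarith)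
        (by linarith) (by linarith) hαβ' hαβ hf t
      convert this using 4
      ext v
      simp only [mem_inter_iff, mem_ofPred_eq]
      exact and_comm)
    hp hf hf0 (fun x => Av_ne_top hδ.le hαβ' hf.ennreal_ofReal (by linarith) hfin x)
  refine key.trans ?_
  gcongr
  rw [show (2 : ℝ≥0∞) = ENNReal.ofReal 2 by simp, ← ENNReal.ofReal_mul (by norm_num),
    ← ENNReal.ofReal_mul (by positivity)]
  apply ENNReal.ofReal_le_ofReal
  have e1 : (2 * N) ^ (p - 2) = (2 * vb d) ^ (p - 2) * (h ^ (p - 2) * δ ^ ((d : ℝ) * (p - 2))) := by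
    have : 2 * N = (2 * vb d) * (h * δ ^ (d : ℝ)) := by rw [hN, Real.rpow_natCast]; ring
    rw [this, Real.mul_rpow (x := 2 * vb d) (by positivity) (by positivity),
      Real.mul_rpow (x := h) (by positivity) (by positivity), ← Real.rpow_mul hδ.le]
  have e2 : (1 / h') ^ (d - 1) = (2 / ρ) ^ (d - 1) * (1 / h) ^ (d - 1) := by
    rw [← mul_pow]
    congr 1
    rw [hh']
    field_simp
  have e3 : δ ^ ((d : ℝ) * (p - 2)) * δ ^ (2 * d) = δ ^ ((d : ℝ) * p) := by
    rw [← Real.rpow_natCast, ← Real.rpow_add hδ]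
    congr 1
    push_cast
    ring
  have e4 : h ^ (p - 2) * (1 / h) ^ (d - 1) ≤ δ ^ (-e) := by
    have h1 : (1 / h) ^ (d - 1) = h ^ (-((d : ℝ) - 1)) := by
      rw [one_div, inv_pow, ← Real.rpow_natCast, Real.rpow_neg hh0.le]
      congr 2
      rw [Nat.cast_sub hd, Nat.cast_one]
    rw [h1, ← Real.rpow_add hh0]
    calc h ^ (p - 2 + -((d : ℝ) - 1)) ≤ h ^ (-e) :=
          Real.rpow_le_rpow_of_exponent_ge hh0 (by linarith) (by linarith)
      _ ≤ δ ^ (-e) := Real.rpow_le_rpow_of_nonpos hδ hδh (by linarith)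
  rw [e1, e2]
  calc 4 * p * ((2 * vb d) ^ (p - 2) * (h ^ (p - 2) * δ ^ ((d : ℝ) * (p - 2)))) / (p - 2) *
        (2 * (MC d * δ ^ (2 * d) * ((2 / ρ) ^ (d - 1) * (1 / h) ^ (d - 1)) * (1 + Real.log (1 / δ))))
      = PC d p ρ * ((δ ^ ((d : ℝ) * (p - 2)) * δ ^ (2 * d)) * (h ^ (p - 2) * (1 / h) ^ (d - 1))) *
          (1 + Real.log (1 / δ)) := by
        unfold PC; ring
    _ ≤ _ := by
        have := PC_nonneg (d := d) hp hρ0
        rw [e3]
        gcongr

end Run7.h523.FM
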