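import Pool.Agent.Run7.h523.WF.Big

set_option autoImplicit false

/-!
# Polar coordinates and the elementary integral
-/

open MeasureTheory Set Metric
open scoped ENNReal

namespace Run7.h523.FM

open Run7.h523.WF (E sg cap capC)

variable {d : ℕ}

theorem polar (hd : 1 ≤ d) {g : E d → ℝ≥0∞} (hg : Measurable g) :
    ∫⁻ x, g x = ∫⁻ r in Ioi (0 : ℝ), ENNReal.ofReal (r ^ (d - 1)) *
      ∫⁻ ω, g (r • (ω : E d)) ∂(sg d) := by
  have hne : Nonempty (Fin d) := ⟨⟨0, hd⟩⟩
  have hnt : Nontrivial (E d) := inferInstance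
  have hfr : Module.finrank ℝ (E d) = d := by simp
  have hmp := (volume : Measure (E d)).measurePreserving_homeomorphUnitSphereProd
  have e1 : ∫⁻ x, g x = ∫⁻ x : ({0}ᶜ : Set (E d)), g x.1 ∂((volume : Measure (E d)).comap (↑)) := by
    rw [lintegral_subtype_comap (measurableSet_singleton _).compl g, restrict_compl_singleton]
  have hG : Measurable (fun p : sphere (0 : E d) 1 × Ioi (0 : ℝ) => g ((p.2 : ℝ) • (p.1 : E d))) := by
    apply hg.comp
    fun_prop
  have e2 : ∀ x : ({0}ᶜ : Set (E d)), g x.1 =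
      (fun p : sphere (0 : E d) 1 × Ioi (0 : ℝ) => g ((p.2 : ℝ) • (p.1 : E d)))
        (homeomorphUnitSphereProd (E d) x) := by
    intro x
    have hx : x.1 ≠ 0 := x.2
    simp only [homeomorphUnitSphereProd_apply_snd_coe, homeomorphUnitSphereProd_apply_fst_coe]
    rw [smul_smul, mul_inv_cancel₀ (norm_ne_zero_iff.2 hx), one_smul]
  rw [e1, lintegral_congr e2, hmp.lintegral_comp hG, hfr]
  rw [lintegral_prod_symm' _ hG]
  unfold Measure.volumeIoiPow
  rw [lintegral_withDensity_eq_lintegral_mul _ (by fun_prop) (by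
    exact Measurable.lintegral_prod_left' hG)]
  rw [← lintegral_subtype_comap measurableSet_Ioi]
  rfl

/-- The constant for sets of small diameter on the sphere. -/
noncomputable def SC (d : ℕ) : ℝ := capC d + (sg d univ).toReal

theorem SC_nonneg (d : ℕ) : 0 ≤ SC d := by
  have := Run7.h523.WF.capC_nonneg d
  unfold SC; positivity

theorem small_sets {s : ℝ} (hs : 0 < s) (A : Set (sphere (0 : E d) 1))
    (hA : ∀ ω ∈ A, ∀ ω' ∈ A, ‖(ω : E d) - ω'‖ < s) :
    sg d A ≤ ENNReal.ofReal (SC d * s ^ (d - 1)) := by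
  have hc := Run7.h523.WF.capC_nonneg d
  rcases A.eq_empty_or_nonempty with h | ⟨ω₀, h₀⟩
  · rw [h, measure_empty]; exact zero_le
  rcases le_or_gt s 1 with h1 | h1
  · refine (measure_mono (t := {ω : sphere (0 : E d) 1 | ‖(ω : E d) - ω₀‖ < s}) fun ω hω => hA ω hω ω₀ h₀).trans ?_
    refine (cap hs h1 ω₀).trans (ENNReal.ofReal_le_ofReal ?_)
    unfold SC
    have : 0 ≤ (sg d univ).toReal := ENNReal.toReal_nonneg
    have : 0 < s ^ (d - 1) := by positivity
    nlinarith
  · have hf : sg d univ ≠ ∞ := by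
      unfold sg; exact measure_ne_top _ _
    refine (measure_mono (subset_univ A)).trans ?_
    rw [← ENNReal.ofReal_toReal hf]
    apply ENNReal.ofReal_le_ofReal
    unfold SC
    have h2 : 0 ≤ (sg d univ).toReal := ENNReal.toReal_nonneg
    have h3 : 1 ≤ s ^ (d - 1) := one_le_pow₀ h1.le
    nlinarith

theorem log_integral {r₀ η : ℝ} (hη : 0 < η) (hη1 : η ≤ 1) (hr : 0 ≤ r₀) :
    ∫⁻ r in Ioc r₀ 1, ENNReal.ofReal (min 1 (η / (r - r₀))) ≤
      ENNReal.ofReal (η * (1 + Real.log (1 / η))) := by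
  have hlog : 0 ≤ Real.log (1 / η) := Real.log_nonneg (by rw [le_div_iff₀ hη]; linarith)
  have hsub : Ioc r₀ 1 ⊆ Ioc r₀ (r₀ + η) ∪ Ioc (r₀ + η) (r₀ + 1) := by
    intro r hr'
    rcases le_or_gt r (r₀ + η) with h | h
    · exact Or.inl ⟨hr'.1, h⟩
    · exact Or.inr ⟨h, by linarith [hr'.2]⟩
  refine (lintegral_mono_set hsub).trans ((lintegral_union_le _ _ _).trans ?_)
  have h1 : ∫⁻ r in Ioc r₀ (r₀ + η), ENNReal.ofReal (min 1 (η / (r - r₀))) ≤ ENNReal.ofReal η := by
    calc ∫⁻ r in Ioc r₀ (r₀ + η), ENNReal.ofReal (min 1 (η / (r - r₀)))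
        ≤ ∫⁻ _ in Ioc r₀ (r₀ + η), 1 := by
          apply lintegral_mono
          intro r
          rw [← ENNReal.ofReal_one]
          exact ENNReal.ofReal_le_ofReal (min_le_left _ _)
      _ = ENNReal.ofReal η := by
          rw [setLIntegral_const, one_mul, Real.volume_Ioc]
          congr 1; ring
  have h2 : ∫⁻ r in Ioc (r₀ + η) (r₀ + 1), ENNReal.ofReal (min 1 (η / (r - r₀))) ≤
      ENNReal.ofReal (η * Real.log (1 / η)) := by
    have h3 : ∫⁻ r in Ioc (r₀ + η) (r₀ + 1), ENNReal.ofReal (min 1 (η / (r - r₀))) ≤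
        ∫⁻ r in Ioc (r₀ + η) (r₀ + 1), ENNReal.ofReal (η / (r - r₀)) := by
      apply lintegral_mono
      intro r
      exact ENNReal.ofReal_le_ofReal (min_le_right _ _)
    refine h3.trans (le_of_eq ?_)
    have hcont : ContinuousOn (fun r : ℝ => η / (r - r₀)) (uIcc (r₀ + η) (r₀ + 1)) := by
      rw [uIcc_of_le (by linarith)]
      apply ContinuousOn.div continuousOn_const (by fun_prop)
      intro r hr'
      have : η ≤ r - r₀ := by linarith [hr'.1]
      linarith
    have hint : IntervalIntegrable (fun r : ℝ => η / (r - r₀)) volume (r₀ + η) (r₀ + 1) :=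
      hcont.intervalIntegrable
    rw [← ofReal_integral_eq_lintegral_ofReal hint.1, ← intervalIntegral.integral_of_le (by linarith)]
    · congr 1
      have e1 : ∫ r in (r₀ + η)..(r₀ + 1), η / (r - r₀) =
          ∫ r in (r₀ + η)..(r₀ + 1), (fun t => η * t⁻¹) (r - r₀) := by
        simp only [div_eq_mul_inv]
      rw [e1, intervalIntegral.integral_comp_sub_right (fun t => η * t⁻¹),
        intervalIntegral.integral_const_mul, add_sub_cancel_left, add_sub_cancel_left,
        integral_inv_of_pos hη one_pos]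
    · filter_upwards [ae_restrict_mem measurableSet_Ioc] with r hr'
      have : 0 < r - r₀ := by linarith [hr'.1]
      positivity
  refine (add_le_add h1 h2).trans (le_of_eq ?_)
  rw [← ENNReal.ofReal_add hη.le (by positivity)]
  congr 1; ring

end Run7.h523.FM
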