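import Pool.Agent.Run7.h523.FM.Pair

set_option autoImplicit false

/-!
# The weak type estimate
-/

open MeasureTheory Set Metric
open scoped ENNReal InnerProductSpace

namespace Run7.h523.FM

open Run7.h523.WF (E sg cap capC)

variable {d : ℕ} {ρ δ h α β : ℝ} {a : E d → E d} {τ : E d → ℝ} {S : Set (E d)}

/-- integrals over pieces of tubes -/
noncomputable def Av (δ : ℝ) (a : E d → E d) (τ : E d → ℝ) (α β : ℝ) (f : E d × ℝ → ℝ≥0∞)
    (v : E d) : ℝ≥0∞ := ∫⁻ y in T δ a τ α β v, f y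

theorem measurable_Av (ha : Measurable a) (hτ : Measurable τ) {f : E d × ℝ → ℝ≥0∞}
    (hf : Measurable f) : Measurable (Av δ a τ α β f) := by
  have h1 : Measurable (fun p : E d × (E d × ℝ) =>
      ({p : E d × (E d × ℝ) | p.2 ∈ T δ a τ α β p.1}).indicator (fun p => f p.2) p) :=
    (hf.comp measurable_snd).indicator (measurable_graph ha hτ)
  have h2 : Av δ a τ α β f = fun v => ∫⁻ y, ({p : E d × (E d × ℝ) | p.2 ∈ T δ a τ α β p.1}).indicator
      (fun p => f p.2) (v, y) := by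
    funext v
    unfold Av
    rw [← lintegral_indicator (measurable_T ha hτ v)]
    rfl
  rw [h2]
  exact h1.lintegral_prod_right'

theorem cauchy {X : Type*} [MeasurableSpace X] (μ : Measure X) {f g : X → ℝ≥0∞} (hf : Measurable f)
    (hg : Measurable g) : (∫⁻ x, f x * g x ∂μ) ^ 2 ≤ (∫⁻ x, f x ^ 2 ∂μ) * ∫⁻ x, g x ^ 2 ∂μ := by
  have h1 := ENNReal.lintegral_mul_le_Lp_mul_Lq μ Real.HolderConjugate.two_two hf.aemeasurable
    hg.aemeasurable
  simp only [Pi.mul_apply, ENNReal.rpow_two] at h1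
  calc (∫⁻ x, f x * g x ∂μ) ^ 2 ≤ ((∫⁻ x, f x ^ 2 ∂μ) ^ (1 / 2 : ℝ) * (∫⁻ x, g x ^ 2 ∂μ) ^ (1 / 2 : ℝ)) ^ 2 := by
        gcongr
    _ = _ := by
        rw [mul_pow, ← ENNReal.rpow_natCast, ← ENNReal.rpow_natCast, ← ENNReal.rpow_mul,
          ← ENNReal.rpow_mul]
        norm_num

/-- The weak type estimate. -/
theorem weak (hd : 1 ≤ d) (hF : FrontOn ρ a τ S) (ha : Measurable a) (hτ : Measurable τ)
    (hS : MeasurableSet S) (hS1 : ∀ v ∈ S, ‖v‖ ≤ 1)
    (hδ : 0 < δ) (hδ4 : 4 * δ ≤ 1) (h8 : 8 * δ ≤ ρ) (hh : 0 < h) (hρ : 8 * h ≤ ρ)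
    (hα : h ≤ α) (hβ : β ≤ 1 - h) (hαβ' : α ≤ β) (hαβ : β - α ≤ ρ / 2)
    {f : E d × ℝ → ℝ≥0∞} (hf : Measurable f) (μ : ℝ≥0∞) :
    μ ^ 2 * volume {v | v ∈ S ∧ μ < Av δ a τ α β f v} ≤
      2 * ENNReal.ofReal (MC d * δ ^ (2 * d) * (1 / h) ^ (d - 1) * (1 + Real.log (1 / δ))) *
        ∫⁻ y, f y ^ 2 := by
  set M := ENNReal.ofReal (MC d * δ ^ (2 * d) * (1 / h) ^ (d - 1) * (1 + Real.log (1 / δ))) with hM
  set V : Set (E d) := {v | v ∈ S ∧ μ < Av δ a τ α β f v} with hV
  have hVm : MeasurableSet V :=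
    hS.inter (measurableSet_lt measurable_const (measurable_Av ha hτ hf))
  have hVf : volume V ≠ ∞ := by
    refine (lt_of_le_of_lt (measure_mono (t := closedBall (0 : E d) 1) fun v hv => ?_)
      measure_closedBall_lt_top).ne
    rw [mem_closedBall_zero_iff]
    exact hS1 v hv.1
  rcases eq_or_ne (volume V) 0 with h0 | h0
  · rw [h0, mul_zero]; exact zero_le
  set Gr : Set (E d × (E d × ℝ)) := {p | p.1 ∈ V ∧ p.2 ∈ T δ a τ α β p.1} with hGr
  have hGm : MeasurableSet Gr := (measurable_fst hVm).inter (measurable_graph ha hτ)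
  set Φ : E d × ℝ → ℝ≥0∞ := fun y => volume {v | v ∈ V ∧ y ∈ T δ a τ α β v} with hΦ
  have hΦm : Measurable Φ := measurable_measure_prodMk_right hGm
  -- first inequality
  have h1 : μ * volume V ≤ ∫⁻ y, f y * Φ y := by
    calc μ * volume V = ∫⁻ _ in V, μ := by rw [setLIntegral_const]
      _ ≤ ∫⁻ v in V, Av δ a τ α β f v := setLIntegral_mono' hVm fun v hv => hv.2.le
      _ = ∫⁻ v, ∫⁻ y, Gr.indicator (fun p => f p.2) (v, y) := by
          rw [← lintegral_indicator hVm]
          congr 1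
          funext v
          by_cases hv : v ∈ V
          · rw [indicator_of_mem hv, Av, ← lintegral_indicator (measurable_T ha hτ v)]
            congr 1
            funext y
            by_cases hy : y ∈ T δ a τ α β v
            · rw [indicator_of_mem hy, indicator_of_mem (show (v, y) ∈ Gr from ⟨hv, hy⟩)]
            · rw [indicator_of_notMem hy, indicator_of_notMem fun h : (v, y) ∈ Gr => hy h.2]
          · rw [indicator_of_notMem hv]
            have : ∀ y, Gr.indicator (fun p => f p.2) (v, y) = 0 := fun y =>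
              indicator_of_notMem (fun h : (v, y) ∈ Gr => hv h.1) _
            simp_rw [this]
            rw [lintegral_zero]
      _ = ∫⁻ y, ∫⁻ v, Gr.indicator (fun p => f p.2) (v, y) := by
          rw [lintegral_lintegral_swap]
          exact ((hf.comp measurable_snd).indicator hGm).aemeasurable
      _ = ∫⁻ y, f y * Φ y := by
          congr 1
          funext y
          have hm : MeasurableSet {v | v ∈ V ∧ y ∈ T δ a τ α β v} := measurable_prodMk_right hGm
          have : ∀ v, Gr.indicator (fun p => f p.2) (v, y) =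
              ({v | v ∈ V ∧ y ∈ T δ a τ α β v} : Set (E d)).indicator (fun _ => f y) v := by
            intro v
            by_cases hv : v ∈ {v | v ∈ V ∧ y ∈ T δ a τ α β v}
            · rw [indicator_of_mem hv, indicator_of_mem (show (v, y) ∈ Gr from hv)]
            · rw [indicator_of_notMem hv, indicator_of_notMem fun h : (v, y) ∈ Gr => hv h]
          simp_rw [this]
          rw [lintegral_indicator_const hm]
  -- the square function
  have h2 : ∫⁻ y, Φ y ^ 2 ≤ 2 * (volume V * M) := by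
    have hcm : Measurable (fun p : E d × E d => volume (T δ a τ α β p.1 ∩ T δ a τ α β p.2)) := by
      have h3 : MeasurableSet {p : (E d × E d) × (E d × ℝ) | p.2 ∈ T δ a τ α β p.1.1 ∧
          p.2 ∈ T δ a τ α β p.1.2} := by
        have k1 : Measurable (fun p : (E d × E d) × (E d × ℝ) => (p.1.1, p.2)) := by fun_prop
        have k2 : Measurable (fun p : (E d × E d) × (E d × ℝ) => (p.1.2, p.2)) := by fun_prop
        exact (k1 (measurable_graph ha hτ)).inter (k2 (measurable_graph ha hτ))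
      exact measurable_measure_prodMk_left h3
    have e1 : ∫⁻ y, Φ y ^ 2 = ∫⁻ v in V, ∫⁻ w in V, volume (T δ a τ α β v ∩ T δ a τ α β w) := by
      set Q : Set ((E d × ℝ) × (E d × E d)) := {p | (p.2.1 ∈ V ∧ p.1 ∈ T δ a τ α β p.2.1) ∧
        (p.2.2 ∈ V ∧ p.1 ∈ T δ a τ α β p.2.2)} with hQ
      have hQm : MeasurableSet Q := by
        have k1 : Measurable (fun p : (E d × ℝ) × (E d × E d) => (p.2.1, p.1)) := by fun_prop
        have k2 : Measurable (fun p : (E d × ℝ) × (E d × E d) => (p.2.2, p.1)) := by fun_prop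
        exact (k1 hGm).inter (k2 hGm)
      have k3 : ∫⁻ y, Φ y ^ 2 = ∫⁻ y, ((volume : Measure (E d)).prod (volume : Measure (E d)))
          (Prod.mk y ⁻¹' Q) := by
        congr 1
        funext y
        have : Prod.mk y ⁻¹' Q = {v | v ∈ V ∧ y ∈ T δ a τ α β v} ×ˢ {v | v ∈ V ∧ y ∈ T δ a τ α β v} := by
          ext p
          simp [hQ]
        rw [this, Measure.prod_prod, sq]
      rw [k3, ← Measure.prod_apply hQm, Measure.prod_apply_symm hQm]
      have k4 : ∀ p : E d × E d, volume ((fun y : E d × ℝ => (y, p)) ⁻¹' Q) =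
          (V ×ˢ V).indicator (fun p => volume (T δ a τ α β p.1 ∩ T δ a τ α β p.2)) p := by
        intro p
        by_cases hp : p ∈ V ×ˢ V
        · rw [indicator_of_mem hp]
          congr 1
          ext y
          simp only [hQ, mem_preimage, mem_ofPred_eq, mem_inter_iff, hp.1, hp.2, true_and]
        · rw [indicator_of_notMem hp]
          have : (fun y : E d × ℝ => (y, p)) ⁻¹' Q = ∅ := by
            ext y
            simp only [hQ, mem_preimage, mem_ofPred_eq, mem_empty_iff_false, iff_false]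
            rintro ⟨⟨k1, _⟩, ⟨k2, _⟩⟩
            exact hp ⟨k1, k2⟩
          rw [this, measure_empty]
      simp_rw [k4]
      rw [lintegral_indicator (hVm.prod hVm), ← Measure.prod_restrict, lintegral_prod _
        hcm.aemeasurable]
    rw [e1]
    have hsplit : ∀ v, ∫⁻ w in V, volume (T δ a τ α β v ∩ T δ a τ α β w) ≤
        (∫⁻ w in V ∩ {w | ‖v‖ ≤ ‖w‖}, volume (T δ a τ α β v ∩ T δ a τ α β w)) +
        ∫⁻ w in V ∩ {w | ‖w‖ ≤ ‖v‖}, volume (T δ a τ α β v ∩ T δ a τ α β w) := by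
      intro v
      refine (lintegral_mono_set (t := (V ∩ {w | ‖v‖ ≤ ‖w‖}) ∪ (V ∩ {w | ‖w‖ ≤ ‖v‖})) ?_).trans
        (lintegral_union_le _ _ _)
      intro w hw
      rcases le_total ‖v‖ ‖w‖ with h | h
      · exact Or.inl ⟨hw, h⟩
      · exact Or.inr ⟨hw, h⟩
    have hsym : ∫⁻ v in V, ∫⁻ w in V ∩ {w | ‖w‖ ≤ ‖v‖}, volume (T δ a τ α β v ∩ T δ a τ α β w) =
        ∫⁻ v in V, ∫⁻ w in V ∩ {w | ‖v‖ ≤ ‖w‖}, volume (T δ a τ α β v ∩ T δ a τ α β w) := by
      have k1 : ∀ v, ∫⁻ w in V ∩ {w | ‖w‖ ≤ ‖v‖}, volume (T δ a τ α β v ∩ T δ a τ α β w) =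
          ∫⁻ w in V, ({p : E d × E d | ‖p.2‖ ≤ ‖p.1‖}).indicator
            (fun p => volume (T δ a τ α β p.1 ∩ T δ a τ α β p.2)) (v, w) := by
        intro v
        have hm : MeasurableSet {w : E d | ‖w‖ ≤ ‖v‖} := measurableSet_le (by fun_prop) (by fun_prop)
        rw [inter_comm, ← Measure.restrict_restrict hm, ← lintegral_indicator hm]
        rfl
      have k2 : ∀ v, ∫⁻ w in V ∩ {w | ‖v‖ ≤ ‖w‖}, volume (T δ a τ α β v ∩ T δ a τ α β w) =
          ∫⁻ w in V, ({p : E d × E d | ‖p.2‖ ≤ ‖p.1‖}).indicator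
            (fun p => volume (T δ a τ α β p.1 ∩ T δ a τ α β p.2)) (w, v) := by
        intro v
        have hm : MeasurableSet {w : E d | ‖v‖ ≤ ‖w‖} := measurableSet_le (by fun_prop) (by fun_prop)
        rw [inter_comm, ← Measure.restrict_restrict hm, ← lintegral_indicator hm]
        congr 1
        funext w
        by_cases hw : w ∈ {w : E d | ‖v‖ ≤ ‖w‖}
        · rw [indicator_of_mem hw, indicator_of_mem (show (w, v) ∈ {p : E d × E d | ‖p.2‖ ≤ ‖p.1‖} from hw),
            inter_comm]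
        · rw [indicator_of_notMem hw,
            indicator_of_notMem fun h : (w, v) ∈ {p : E d × E d | ‖p.2‖ ≤ ‖p.1‖} => hw h]
      simp_rw [k1, k2]
      rw [lintegral_lintegral_swap]
      have hm : MeasurableSet {p : E d × E d | ‖p.2‖ ≤ ‖p.1‖} :=
        measurableSet_le (by fun_prop) (by fun_prop)
      exact (hcm.indicator hm).aemeasurable
    have hhalf : ∫⁻ v in V, ∫⁻ w in V ∩ {w | ‖v‖ ≤ ‖w‖}, volume (T δ a τ α β v ∩ T δ a τ α β w) ≤
        volume V * M := by
      calc _ ≤ ∫⁻ _ in V, M := by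
            refine setLIntegral_mono' hVm fun v hv => ?_
            refine le_trans (lintegral_mono_set ?_)
              (pair_est hd hF ha hτ hS hS1 hδ hδ4 h8 hh hρ hα hβ hαβ' hαβ hv.1)
            exact inter_subset_inter_left _ fun w hw => hw.1
        _ = _ := by rw [setLIntegral_const, mul_comm]
    have hmeas : Measurable (fun v => ∫⁻ w in V ∩ {w | ‖v‖ ≤ ‖w‖},
        volume (T δ a τ α β v ∩ T δ a τ α β w)) := by
      have k2 : (fun v => ∫⁻ w in V ∩ {w | ‖v‖ ≤ ‖w‖}, volume (T δ a τ α β v ∩ T δ a τ α β w)) =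
          fun v => ∫⁻ w in V, ({p : E d × E d | ‖p.1‖ ≤ ‖p.2‖}).indicator
            (fun p => volume (T δ a τ α β p.1 ∩ T δ a τ α β p.2)) (v, w) := by
        funext v
        have hm : MeasurableSet {w : E d | ‖v‖ ≤ ‖w‖} := measurableSet_le (by fun_prop) (by fun_prop)
        rw [inter_comm, ← Measure.restrict_restrict hm, ← lintegral_indicator hm]
        rfl
      rw [k2]
      have hm : MeasurableSet {p : E d × E d | ‖p.1‖ ≤ ‖p.2‖} :=
        measurableSet_le (by fun_prop) (by fun_prop)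
      exact (hcm.indicator hm).lintegral_prod_right'
    calc _ ≤ ∫⁻ v in V, ((∫⁻ w in V ∩ {w | ‖v‖ ≤ ‖w‖}, volume (T δ a τ α β v ∩ T δ a τ α β w)) +
          ∫⁻ w in V ∩ {w | ‖w‖ ≤ ‖v‖}, volume (T δ a τ α β v ∩ T δ a τ α β w)) :=
          lintegral_mono fun v => hsplit v
      _ = (∫⁻ v in V, ∫⁻ w in V ∩ {w | ‖v‖ ≤ ‖w‖}, volume (T δ a τ α β v ∩ T δ a τ α β w)) +
          ∫⁻ v in V, ∫⁻ w in V ∩ {w | ‖w‖ ≤ ‖v‖}, volume (T δ a τ α β v ∩ T δ a τ α β w) :=
          lintegral_add_left hmeas _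
      _ ≤ 2 * (volume V * M) := by
          rw [hsym, two_mul]
          exact add_le_add hhalf hhalf
  have h3 := cauchy (volume : Measure (E d × ℝ)) hf hΦm
  have h4 : (μ * volume V) ^ 2 ≤ (∫⁻ y, f y ^ 2) * (2 * (volume V * M)) :=
    (pow_le_pow_left' h1 2).trans (h3.trans (by gcongr))
  have h5 : (μ ^ 2 * volume V) * volume V ≤ (2 * M * ∫⁻ y, f y ^ 2) * volume V := by
    calc (μ ^ 2 * volume V) * volume V = (μ * volume V) ^ 2 := by ring
      _ ≤ _ := h4
      _ = _ := by ring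
  exact (ENNReal.mul_le_mul_iff_left h0 hVf).1 h5

end Run7.h523.FM
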